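import Mathlib

open Filter Topology Set Uniformity Dynamics ComplexConjugate

namespace Sarnak8c

/-- `χ(mn) = χ(m)χ(n)` for coprime integers `m`, `n`. -/
def IsMult (χ : ℤ → ℂ) : Prop := ∀ m n : ℤ, IsCoprime m n → χ (m * n) = χ m * χ n

/-- Property (S) of the problem: `(1/N) ∑_{1 ≤ n ≤ N} χ(n) Φ(Tⁿ x) → 0` for every compact metric
space `X`, every continuous `T : X → X` of zero topological entropy (Bowen–Dinaburg, Mathlib's
`coverEntropy` of the whole space), every continuous `Φ : X → ℂ` and every point `x`. -/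
def PropertyS (χ : ℤ → ℂ) : Prop :=
  ∀ (X : Type) [MetricSpace X] [CompactSpace X] (T : X → X), Continuous T →
    coverEntropy T univ = 0 → ∀ (Φ : C(X, ℂ)) (x : X),
      Tendsto (fun N : ℕ => (1 / (N : ℂ)) * ∑ n ∈ Finset.Icc 1 N, χ n * Φ (T^[n] x))
        atTop (𝓝 0)

/-- Polynomial complexity of a topological system: for every entourage `U` the least number of
`(U, n)`-dynamical balls covering the space is at most `K n ^ K` for all `n ≥ 1`, with `K`
depending on `U` only. -/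
def PolyGrowth {X : Type} [MetricSpace X] (T : X → X) : Prop :=
  ∀ U ∈ 𝓤 X, ∃ K : ℕ, ∀ n : ℕ, 1 ≤ n → coverMincard T univ U n ≤ ((K * n ^ K : ℕ) : ℕ∞)

/-- The statement of property (S) for the systems of polynomial complexity only. -/
def PropertySPoly (χ : ℤ → ℂ) : Prop :=
  ∀ (X : Type) [MetricSpace X] [CompactSpace X] (T : X → X), Continuous T →
    PolyGrowth T → ∀ (Φ : C(X, ℂ)) (x : X),
      Tendsto (fun N : ℕ => (1 / (N : ℂ)) * ∑ n ∈ Finset.Icc 1 N, χ n * Φ (T^[n] x))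
        atTop (𝓝 0)

/-- `D(χ, ψ n^{it}; N)^2`: the sum of `(1 - Re χ(p) conj(ψ(p) p^{it})) / p` over the primes
`p ≤ N`. -/
noncomputable def pretDist {q : ℕ} (χ : ℤ → ℂ) (ψ : DirichletCharacter ℂ q) (t : ℝ) (N : ℕ) : ℝ :=
  ∑ p ∈ Finset.range (N + 1) with p.Prime,
    (1 - (χ p * conj (ψ p * (p : ℂ) ^ ((t : ℂ) * Complex.I))).re) / p

/-- Strong aperiodicity, with heights up to any power of `N`: for every Dirichlet character `ψ`
and every `A`, the minimum over `|t| ≤ N ^ A` of `D(χ, ψ n^{it}; N)` tends to infinity. -/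
def StronglyAperiodic (χ : ℤ → ℂ) : Prop :=
  ∀ (q : ℕ) [NeZero q] (ψ : DirichletCharacter ℂ q) (A C : ℝ), ∀ᶠ N : ℕ in atTop,
    ∀ t : ℝ, |t| ≤ (N : ℝ) ^ A → C ≤ pretDist χ ψ t N

end Sarnak8c
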