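import Pool.Agent.Sarnak.Codes

open Filter Topology Set Uniformity Dynamics

namespace Sarnak8c

structure WData where
  M : ℕ → ℕ
  t : ℕ → ℝ
  B : ℕ
  D : ℕ
  hD : 2 ≤ D
  hM : ∀ k, 1 ≤ M k
  hgrow : ∀ k, 2 * D * M k ≤ M (k + 1)
  ht : ∀ k, |t k| ≤ (M k : ℝ) ^ B

namespace WData

variable (w : WData)

lemma two_mul_le (k : ℕ) : 2 * w.M k ≤ w.M (k + 1) := by
  have h1 := w.hgrow k
  have h2 := w.hD
  have : 2 * w.M k ≤ 2 * w.D * w.M k := by nlinarith [w.hM k]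
  omega

lemma strictMono : StrictMono w.M := by
  apply strictMono_nat_of_lt_succ
  intro k
  have := w.two_mul_le k
  have := w.hM k
  omega

lemma exists_le (n : ℕ) : ∃ k, n ≤ w.M k := ⟨n, w.strictMono.le_apply⟩

open Classical in
noncomputable def κ (n : ℕ) : ℕ := Nat.find (w.exists_le n)

lemma κ_le (n : ℕ) : n ≤ w.M (w.κ n) := by
  classical
  exact Nat.find_spec (w.exists_le n)

lemma κ_lt {n k : ℕ} (h : k < w.κ n) : w.M k < n := by
  classical
  exact not_le.1 (Nat.find_min (w.exists_le n) h)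

lemma κ_eq {n k : ℕ} (h : n ≤ w.M k) (h' : ∀ k' < k, w.M k' < n) : w.κ n = k := by
  classical
  exact (Nat.find_eq_iff (w.exists_le n)).2 ⟨h, fun m hm => not_le.2 (h' m hm)⟩

open Classical in
/-- the window sequence -/
noncomputable def seq (n : ℕ) : ℂ :=
  if w.M (w.κ n) < w.D * n then ee (-(w.t (w.κ n)) * Real.log n) else 0

lemma norm_seq (n : ℕ) : ‖w.seq n‖ ≤ 1 := by
  unfold seq
  split_ifs
  · exact (norm_ee _).le
  · simp

lemma seq_eq {j i L : ℕ} (hi : i < L) (hL : L ≤ j) : w.seq (j + i) =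
    if w.M (w.κ j) < w.D * (j + i) ∧ j + i ≤ w.M (w.κ j) then
      ee (-(w.t (w.κ j)) * Real.log ((j + i : ℕ) : ℝ)) else 0 := by
  have hj := w.κ_le j
  by_cases h : j + i ≤ w.M (w.κ j)
  · have hk : w.κ (j + i) = w.κ j := by
      apply w.κ_eq h
      intro k' hk'
      have := w.κ_lt hk'
      omega
    unfold seq
    rw [hk]
    simp only [h, and_true]
  · have hk : w.κ (j + i) = w.κ j + 1 := by
      apply w.κ_eq
      · have := w.two_mul_le (w.κ j)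
        omega
      · intro k' hk'
        have : w.M k' ≤ w.M (w.κ j) := w.strictMono.monotone (by omega)
        omega
    unfold seq
    rw [hk, if_neg, if_neg (fun h' => h h'.2)]
    rw [not_lt]
    calc w.D * (j + i) ≤ w.D * (2 * w.M (w.κ j)) := by
          apply Nat.mul_le_mul_left; omega
      _ = 2 * w.D * w.M (w.κ j) := by ring
      _ ≤ _ := w.hgrow _

/-- Taylor coefficients of `-t log (j + i)` in `i`. -/
noncomputable def θ (j r : ℕ) : ℝ :=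
  if r = 0 then -(w.t (w.κ j)) * Real.log j else
    w.t (w.κ j) * ((-1) ^ r / (r * (j : ℝ) ^ r))

lemma taylor {j i L : ℕ} {ε : ℝ} (hε : 0 < ε) (Q : ℕ) (hQ2 : 2 ≤ Q)
    (hQ : 6 * (2 * w.D : ℝ) ^ w.B / ε ≤ Q) (hi : i < L)
    (hL : Q * L ^ (w.B + 1) ≤ j) (hwin : w.M (w.κ j) < w.D * (j + i)) :
    ‖ee (-(w.t (w.κ j)) * Real.log ((j + i : ℕ) : ℝ)) -
      ee (∑ r ∈ Finset.range (w.B + 1), w.θ j r * (i : ℝ) ^ r)‖ ≤ ε / 3 := by
  have hL1 : 1 ≤ L := by omega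
  have hLL : L ≤ L ^ (w.B + 1) := Nat.le_self_pow (by omega) L
  have hQL : 2 * L ≤ j := by
    calc 2 * L ≤ Q * L ^ (w.B + 1) := Nat.mul_le_mul hQ2 hLL
      _ ≤ j := hL
  have hj : 0 < j := by omega
  have hj' : (0 : ℝ) < j := by exact_mod_cast hj
  refine (norm_ee_sub _ _).trans ?_
  set x : ℝ := -((i : ℝ) / j) with hx
  have hij : (i : ℝ) / j ≤ 1 / 2 := by
    rw [div_le_div_iff₀ hj' (by norm_num)]
    have : i * 2 ≤ 1 * j := by omega
    exact_mod_cast this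
  have hij0 : 0 ≤ (i : ℝ) / j := by positivity
  have hxabs : |x| = (i : ℝ) / j := by rw [hx, abs_neg, abs_of_nonneg hij0]
  have hlog : Real.log ((j + i : ℕ) : ℝ) = Real.log j + Real.log (1 - x) := by
    have h1x : 0 < 1 - x := by rw [hx]; linarith
    rw [← Real.log_mul hj'.ne' h1x.ne']
    congr 1
    rw [hx]; push_cast; field_simp; ring
  have hsum : ∑ r ∈ Finset.range (w.B + 1), w.θ j r * (i : ℝ) ^ r =
      -(w.t (w.κ j)) * Real.log j +
        w.t (w.κ j) * ∑ r ∈ Finset.range w.B, x ^ (r + 1) / (r + 1) := by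
    rw [Finset.sum_range_succ', add_comm]
    congr 1
    · simp [θ]
    · rw [Finset.mul_sum]
      apply Finset.sum_congr rfl
      intro r _
      have : w.θ j (r + 1) = w.t (w.κ j) * ((-1) ^ (r + 1) / (((r + 1 : ℕ) : ℝ) * (j : ℝ) ^ (r + 1))) := by
        simp [θ]
      rw [this, hx, neg_pow ((i : ℝ) / j), div_pow]
      push_cast
      field_simp
  rw [hlog, hsum]
  have hT := Real.abs_log_sub_add_sum_range_le (x := x) (by rw [hxabs]; linarith) w.B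
  have hmain : |(-(w.t (w.κ j)) * (Real.log j + Real.log (1 - x)) -
      (-(w.t (w.κ j)) * Real.log j +
        w.t (w.κ j) * ∑ r ∈ Finset.range w.B, x ^ (r + 1) / (r + 1)))| =
      |w.t (w.κ j)| * |(∑ r ∈ Finset.range w.B, x ^ (r + 1) / (r + 1)) + Real.log (1 - x)| := by
    rw [← abs_mul, ← abs_neg]
    congr 1; ring
  rw [hmain]
  have h1 : |x| ^ (w.B + 1) / (1 - |x|) ≤ 2 * ((L : ℝ) / j) ^ (w.B + 1) := by
    rw [hxabs, div_le_iff₀ (by linarith)]
    have h2 : ((i : ℝ) / j) ^ (w.B + 1) ≤ ((L : ℝ) / j) ^ (w.B + 1) := by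
      have : (i : ℝ) ≤ L := by exact_mod_cast hi.le
      gcongr
    have h3 : 0 ≤ ((L : ℝ) / j) ^ (w.B + 1) := by positivity
    nlinarith
  have htb : |w.t (w.κ j)| ≤ (2 * w.D * (j : ℝ)) ^ w.B := by
    refine (w.ht _).trans ?_
    have : w.M (w.κ j) ≤ 2 * w.D * j := by
      have : w.D * (j + i) ≤ w.D * (2 * j) := Nat.mul_le_mul_left _ (by omega)
      nlinarith
    have h' : (w.M (w.κ j) : ℝ) ≤ 2 * w.D * j := by exact_mod_cast this
    gcongr
  have hjL : (Q : ℝ) * (L : ℝ) ^ (w.B + 1) ≤ j := by exact_mod_cast hL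
  have hLpos : (0 : ℝ) < (L : ℝ) ^ (w.B + 1) := by
    have : (0 : ℝ) < L := by exact_mod_cast hL1
    positivity
  calc |w.t (w.κ j)| * |(∑ r ∈ Finset.range w.B, x ^ (r + 1) / (r + 1)) + Real.log (1 - x)|
      ≤ (2 * w.D * (j : ℝ)) ^ w.B * (2 * ((L : ℝ) / j) ^ (w.B + 1)) := by
        apply mul_le_mul htb (hT.trans h1) (abs_nonneg _) (by positivity)
    _ = 2 * (2 * w.D : ℝ) ^ w.B * (L : ℝ) ^ (w.B + 1) / j := by
        rw [mul_pow, div_pow, pow_succ (j : ℝ)]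
        field_simp
    _ ≤ ε / 3 := by
        rw [div_le_div_iff₀ hj' (by norm_num)]
        have h5 : 6 * (2 * w.D : ℝ) ^ w.B ≤ Q * ε := by
          rw [div_le_iff₀ hε] at hQ; exact hQ
        calc 2 * (2 * w.D : ℝ) ^ w.B * (L : ℝ) ^ (w.B + 1) * 3
            = (6 * (2 * w.D : ℝ) ^ w.B) * (L : ℝ) ^ (w.B + 1) := by ring
          _ ≤ (Q * ε) * (L : ℝ) ^ (w.B + 1) := by gcongr
          _ = ε * (Q * (L : ℝ) ^ (w.B + 1)) := by ring
          _ ≤ ε * j := by gcongr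

lemma polyComplex : PolyComplex w.seq := by
  intro ε hε
  -- constants
  obtain ⟨Q, hQ⟩ : ∃ Q : ℕ, 2 ≤ Q ∧ 6 * (2 * w.D : ℝ) ^ w.B / ε ≤ Q := by
    refine ⟨⌈6 * (2 * w.D : ℝ) ^ w.B / ε⌉₊ + 2, by omega, ?_⟩
    push_cast
    have := Nat.le_ceil (6 * (2 * w.D : ℝ) ^ w.B / ε)
    linarith
  obtain ⟨P, hP⟩ : ∃ P : ℕ, 0 < P ∧ 2 * Real.pi * (w.B + 1) / P ≤ ε / 3 := by
    refine ⟨⌈2 * Real.pi * (w.B + 1) / (ε / 3)⌉₊ + 1, by omega, ?_⟩
    have := Nat.le_ceil (2 * Real.pi * (w.B + 1) / (ε / 3))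
    rw [div_le_iff₀ (by positivity)]
    rw [div_le_iff₀ (by positivity)] at this
    push_cast
    nlinarith
  obtain ⟨d, hd, hdd⟩ := polyCode_family (w.B + 1)
    (fun r L j => ⌊Int.fract (w.θ j r / (2 * Real.pi)) * ((P * L ^ r : ℕ) : ℝ)⌋₊) (by
      intro r hr
      refine PolyCode.of_le P r fun L hL j => ?_
      apply Nat.floor_le_of_le
      calc Int.fract (w.θ j r / (2 * Real.pi)) * ((P * L ^ r : ℕ) : ℝ)
          ≤ 1 * ((P * L ^ r : ℕ) : ℝ) := by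
            gcongr
            exact (Int.fract_lt_one _).le
        _ = _ := one_mul _)
  have c1 : PolyCode (fun L j => min j (Q * L ^ (w.B + 1))) :=
    PolyCode.of_le Q (w.B + 1) fun L _ j => min_le_right _ _
  have c2 : PolyCode (fun L j => min L (w.M (w.κ j) / w.D + 1 - j)) :=
    PolyCode.of_le 1 1 fun L _ j => by simp
  have c3 : PolyCode (fun L j => min L (w.M (w.κ j) + 1 - j)) :=
    PolyCode.of_le 1 1 fun L _ j => by simp
  refine ⟨_, c1.pair (c2.pair (c3.pair hd)), ?_⟩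
  intro L hL j j' he i hi
  obtain ⟨e1, he⟩ := Nat.pair_eq_pair.1 he
  obtain ⟨e2, he⟩ := Nat.pair_eq_pair.1 he
  obtain ⟨e3, e4⟩ := Nat.pair_eq_pair.1 he
  have e5 := hdd L j j' e4
  rcases lt_or_ge j (Q * L ^ (w.B + 1)) with hj | hj
  · have : j = j' := by omega
    subst this
    simp [hε.le]
  · have hj' : Q * L ^ (w.B + 1) ≤ j' := by omega
    have hLL : L ≤ Q * L ^ (w.B + 1) := by
      calc L ≤ L ^ (w.B + 1) := Nat.le_self_pow (by omega) L
        _ ≤ Q * L ^ (w.B + 1) := Nat.le_mul_of_pos_left _ (by omega)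
    rw [w.seq_eq hi (hLL.trans hj), w.seq_eq hi (hLL.trans hj')]
    have hDpos : 0 < w.D := by have := w.hD; omega
    have hcond : ∀ j, (w.M (w.κ j) < w.D * (j + i) ∧ j + i ≤ w.M (w.κ j)) ↔
        (w.M (w.κ j) / w.D + 1 - j ≤ i ∧ i < w.M (w.κ j) + 1 - j) := by
      intro j
      have : w.M (w.κ j) < w.D * (j + i) ↔ w.M (w.κ j) / w.D < j + i := by
        rw [Nat.div_lt_iff_lt_mul hDpos, mul_comm]
      rw [this]
      omega
    have hiff : (w.M (w.κ j) < w.D * (j + i) ∧ j + i ≤ w.M (w.κ j)) ↔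
        (w.M (w.κ j') < w.D * (j' + i) ∧ j' + i ≤ w.M (w.κ j')) := by
      rw [hcond, hcond]
      omega
    by_cases h : w.M (w.κ j) < w.D * (j + i) ∧ j + i ≤ w.M (w.κ j)
    · rw [if_pos h, if_pos (hiff.1 h)]
      have t1 := w.taylor hε Q hQ.1 hQ.2 hi hj h.1
      have t2 := w.taylor hε Q hQ.1 hQ.2 hi hj' (hiff.1 h).1
      have t3 := (phase_close w.B P hP.1 L hL (w.θ j) (w.θ j') e5 i hi).trans hP.2
      set X := ee (-(w.t (w.κ j)) * Real.log ((j + i : ℕ) : ℝ))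
      set X' := ee (-(w.t (w.κ j')) * Real.log ((j' + i : ℕ) : ℝ))
      set Z := ee (∑ r ∈ Finset.range (w.B + 1), w.θ j r * (i : ℝ) ^ r)
      set Z' := ee (∑ r ∈ Finset.range (w.B + 1), w.θ j' r * (i : ℝ) ^ r)
      calc ‖X - X'‖ = ‖(X - Z) + (Z - Z') + -(X' - Z')‖ := by congr 1; ring
        _ ≤ ‖X - Z‖ + ‖Z - Z'‖ + ‖-(X' - Z')‖ := norm_add₃_le
        _ ≤ ε / 3 + ε / 3 + ε / 3 := by
            rw [norm_neg]; gcongr
        _ = ε := by ring
    · rw [if_neg h, if_neg (fun h' => h (hiff.2 h'))]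
      simp [hε.le]

end WData

end Sarnak8c
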