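import Pool.Agent.Sarnak.MeanValue3
import Pool.Agent.Sarnak.Window

open Filter Topology Finset ComplexConjugate

namespace Sarnak8c

open Classical in
/-- odd part of the twist -/
noncomputable def ff {q : ℕ} (χ : ℤ → ℂ) (ψ : DirichletCharacter ℂ q) (t : ℝ) (n : ℕ) : ℂ :=
  if 2 ∣ n then 0 else χ n * (conj (ψ n) * ee (-t * Real.log n))

lemma conj_ee (x : ℝ) : conj (ee x) = ee (-x) := by
  unfold ee
  rw [← Complex.exp_conj]
  congr 1
  simp

lemma cpow_eq_ee {p : ℕ} (hp : 1 ≤ p) (t : ℝ) :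
    (p : ℂ) ^ ((t : ℂ) * Complex.I) = ee (t * Real.log p) := by
  have hp0 : (p : ℂ) ≠ 0 := by exact_mod_cast (by omega : p ≠ 0)
  rw [Complex.cpow_def_of_ne_zero hp0]
  unfold ee
  congr 1
  rw [Complex.ofReal_mul, ← Complex.natCast_log]
  ring

lemma ff_BM {q : ℕ} {χ : ℤ → ℂ} (hm : IsMult χ) (hb : ∀ n, ‖χ n‖ ≤ 1) (h1 : χ 1 = 1)
    (ψ : DirichletCharacter ℂ q) (t : ℝ) : BM (ff χ ψ t) where
  one := by
    unfold ff
    rw [if_neg (by norm_num)]
    simp [h1, ee]
  mul := by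
    intro m n hmn
    rcases Nat.eq_zero_or_pos m with hm0 | hm0
    · subst hm0
      have : n = 1 := by simpa using hmn
      subst this
      simp [ff]
    rcases Nat.eq_zero_or_pos n with hn0 | hn0
    · subst hn0
      have : m = 1 := by simpa using hmn
      subst this
      simp [ff]
    unfold ff
    by_cases h2 : 2 ∣ m
    · rw [if_pos (h2.mul_right n), if_pos h2, zero_mul]
    by_cases h3 : 2 ∣ n
    · rw [if_pos (h3.mul_left m), if_pos h3, mul_zero]
    have h4 : ¬ 2 ∣ m * n := by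
      intro h
      rcases (Nat.Prime.dvd_mul Nat.prime_two).1 h with h | h
      · exact h2 h
      · exact h3 h
    rw [if_neg h4, if_neg h2, if_neg h3]
    have hm' : (m : ℝ) ≠ 0 := by exact_mod_cast hm0.ne'
    have hn' : (n : ℝ) ≠ 0 := by exact_mod_cast hn0.ne'
    have e1 : χ ((m * n : ℕ) : ℤ) = χ m * χ n := by
      push_cast
      exact hm _ _ (Nat.isCoprime_iff_coprime.2 hmn)
    have e2 : ee (-t * Real.log ((m * n : ℕ) : ℝ)) = ee (-t * Real.log m) * ee (-t * Real.log n) := by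
      rw [← ee_add]
      congr 1
      push_cast
      rw [Real.log_mul hm' hn']; ring
    rw [e1, e2]
    push_cast
    rw [map_mul, map_mul]
    ring
  bd := by
    intro n
    unfold ff
    split_ifs
    · simp
    · rw [norm_mul, norm_mul, norm_ee, mul_one, RCLike.norm_conj]
      calc ‖χ n‖ * ‖ψ n‖ ≤ 1 * 1 := by
            apply mul_le_mul (hb _) (DirichletCharacter.norm_le_one ψ _) (norm_nonneg _) (by norm_num)
        _ = 1 := one_mul _

lemma dist3_ff_le {q : ℕ} {χ : ℤ → ℂ} (hb : ∀ n, ‖χ n‖ ≤ 1)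
    (ψ : DirichletCharacter ℂ q) (t : ℝ) (N : ℕ) : dist3 (ff χ ψ t) N ≤ pretDist χ ψ t N := by
  unfold dist3 pretDist
  have hterm : ∀ p ∈ (N + 1).primesBelow,
      0 ≤ (1 - (χ p * conj (ψ p * (p : ℂ) ^ ((t : ℂ) * Complex.I))).re) / p := by
    intro p hp
    have hpp := Nat.prime_of_mem_primesBelow hp
    apply div_nonneg _ (Nat.cast_nonneg p)
    rw [sub_nonneg]
    refine (Complex.re_le_norm _).trans ?_
    rw [norm_mul, RCLike.norm_conj, norm_mul, cpow_eq_ee hpp.one_lt.le, norm_ee, mul_one]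
    calc ‖χ p‖ * ‖ψ p‖ ≤ 1 * 1 := by
          apply mul_le_mul (hb _) (DirichletCharacter.norm_le_one ψ _) (norm_nonneg _) (by norm_num)
      _ = 1 := one_mul _
  calc ∑ p ∈ (N + 1).primesBelow.filter (3 ≤ ·), (1 - (ff χ ψ t p).re) / p
      = ∑ p ∈ (N + 1).primesBelow.filter (3 ≤ ·),
          (1 - (χ p * conj (ψ p * (p : ℂ) ^ ((t : ℂ) * Complex.I))).re) / p := by
        apply sum_congr rfl
        intro p hp
        rw [mem_filter] at hp
        have hpp := Nat.prime_of_mem_primesBelow hp.1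
        have h2 : ¬ 2 ∣ p := by
          intro h
          have := (Nat.prime_dvd_prime_iff_eq Nat.prime_two hpp).1 h
          have := hp.2
          omega
        unfold ff
        rw [if_neg h2, cpow_eq_ee hpp.one_lt.le, map_mul, conj_ee, neg_mul]
    _ ≤ _ := sum_le_sum_of_subset_of_nonneg (filter_subset _ _) fun p hp _ => hterm p hp

lemma exists_scales {q : ℕ} {χ : ℤ → ℂ} (hm : IsMult χ) (hb : ∀ n, ‖χ n‖ ≤ 1) (h1 : χ 1 = 1)
    (ψ : DirichletCharacter ℂ q) (A C : ℝ)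
    (h : ∃ᶠ N : ℕ in atTop, ∃ t : ℝ, |t| ≤ (N : ℝ) ^ A ∧ pretDist χ ψ t N < C) :
    ∃ ε : ℝ, 0 < ε ∧ ∃ B : ℕ, ∀ M₀ : ℕ, ∃ M : ℕ, M₀ ≤ M ∧ ∃ t : ℝ, |t| ≤ (M : ℝ) ^ B ∧
      ε * M ≤ ‖∑ i ∈ Icc 1 M, ff χ ψ t i‖ := by
  obtain ⟨ε, hε, c, hc, N₀, hsc⟩ := scale C
  refine ⟨ε, hε, ⌈|A| / c⌉₊, fun M₀ => ?_⟩
  have hlarge : ∀ᶠ N : ℕ in atTop, (M₀ : ℝ) + 1 ≤ (N : ℝ) ^ c := by
    have := (tendsto_rpow_atTop hc).comp (tendsto_natCast_atTop_atTop (R := ℝ))
    exact this.eventually_ge_atTop _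
  obtain ⟨N, ⟨t, ht, hd⟩, hN1, hN2, hN3⟩ :=
    (h.and_eventually (hlarge.and ((eventually_ge_atTop N₀).and (eventually_ge_atTop 1)))).exists
  obtain ⟨M, hM1, hM2, hM3⟩ := hsc N hN2 _ (ff_BM hm hb h1 ψ t) (by
    intro k hk
    unfold ff
    rw [if_pos (dvd_pow_self 2 (by omega))]) ((dist3_ff_le hb ψ t N).trans hd.le)
  have hMM : (M₀ : ℝ) + 1 ≤ M := hN1.trans hM1
  have hMge : M₀ + 1 ≤ M := by exact_mod_cast hMM
  refine ⟨M, by omega, t, ?_, hM3⟩
  have hN0 : (0 : ℝ) < N := by exact_mod_cast hN3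
  have hNone : (1 : ℝ) ≤ N := by exact_mod_cast hN3
  have hM0 : (1 : ℝ) ≤ M := by exact_mod_cast (by omega : 1 ≤ M)
  calc |t| ≤ (N : ℝ) ^ A := ht
    _ ≤ (N : ℝ) ^ |A| := Real.rpow_le_rpow_of_exponent_le hNone (le_abs_self A)
    _ = ((N : ℝ) ^ c) ^ (|A| / c) := by
        rw [← Real.rpow_mul hN0.le]; congr 1; field_simp
    _ ≤ (M : ℝ) ^ (|A| / c) := by
        apply Real.rpow_le_rpow (by positivity) hM1 (by positivity)
    _ ≤ (M : ℝ) ^ ((⌈|A| / c⌉₊ : ℕ) : ℝ) :=
        Real.rpow_le_rpow_of_exponent_le hM0 (Nat.le_ceil _)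
    _ = (M : ℝ) ^ ⌈|A| / c⌉₊ := Real.rpow_natCast _ _

theorem no_scales {q : ℕ} [NeZero q] {χ : ℤ → ℂ} (hb : ∀ n, ‖χ n‖ ≤ 1)
    (hS : PropertySPoly χ) (ψ : DirichletCharacter ℂ q) (ε : ℝ) (hε : 0 < ε) (B : ℕ)
    (h : ∀ M₀ : ℕ, ∃ M : ℕ, M₀ ≤ M ∧ ∃ t : ℝ, |t| ≤ (M : ℝ) ^ B ∧
      ε * M ≤ ‖∑ i ∈ Icc 1 M, ff χ ψ t i‖) : False := by
  classical
  choose Mf hMf tf htf hsf using h
  obtain ⟨D, hD2, hDε⟩ : ∃ D : ℕ, 2 ≤ D ∧ 4 / ε ≤ D := by
    refine ⟨⌈4 / ε⌉₊ + 2, by omega, ?_⟩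
    push_cast
    have := Nat.le_ceil (4 / ε)
    linarith
  let a : ℕ → ℕ := fun k => Nat.rec 1 (fun _ m => 2 * D * Mf m) k
  have ha0 : a 0 = 1 := rfl
  have ha1 : ∀ k, a (k + 1) = 2 * D * Mf (a k) := fun k => rfl
  have hpos : ∀ k, 1 ≤ a k := by
    intro k
    induction k with
    | zero => simp [ha0]
    | succ k ih =>
      rw [ha1]
      have := hMf (a k)
      nlinarith
  let w : WData :=
    { M := fun k => Mf (a k)
      t := fun k => tf (a k)
      B := B
      D := D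
      hD := hD2
      hM := fun k => (hpos k).trans (hMf _)
      hgrow := fun k => by
        have := hMf (a (k + 1))
        rw [ha1] at this ⊢
        exact this
      ht := fun k => htf _ }
  let p : ℕ → ℂ := fun n => if 2 ∣ n then 0 else conj (ψ n)
  have hpn : ∀ n, ‖p n‖ ≤ 1 := by
    intro n
    simp only [p]
    split_ifs
    · simp
    · rw [RCLike.norm_conj]; exact DirichletCharacter.norm_le_one ψ _
  have hper : ∀ n, p (n + 2 * q) = p n := by
    intro n
    simp only [p]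
    have h1 : (2 ∣ n + 2 * q) ↔ 2 ∣ n := by
      constructor <;> intro h <;> omega
    have h2 : (((n + 2 * q : ℕ)) : ZMod q) = (n : ZMod q) := by
      push_cast; simp
    rw [h2]
    by_cases h : 2 ∣ n
    · rw [if_pos h, if_pos (h1.2 h)]
    · rw [if_neg h, if_neg (fun h' => h (h1.1 h'))]
  have hpc : PolyComplex p := PolyComplex.periodic (2 * q) (by have := NeZero.pos q; omega) hper
  have hac := w.polyComplex.mul w.norm_seq hpn hpc
  have hbd : ∀ n, ‖w.seq n * p n‖ ≤ 1 := by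
    intro n
    rw [norm_mul]
    calc _ ≤ (1 : ℝ) * 1 := mul_le_mul (w.norm_seq n) (hpn n) (norm_nonneg _) (by norm_num)
      _ = 1 := one_mul _
  have hlim := hS.tendsto hbd hac
  have hMtend : Tendsto w.M atTop atTop := w.strictMono.tendsto_atTop
  have hlim2 := (hlim.comp hMtend).norm
  simp only [norm_zero] at hlim2
  have hev := hlim2.eventually (gt_mem_nhds (show (0 : ℝ) < ε / 2 by positivity))
  obtain ⟨k, hk⟩ := hev.exists
  -- lower bound
  have hMk : 1 ≤ w.M k := w.hM k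
  have hMk0 : (0 : ℝ) < w.M k := by exact_mod_cast hMk
  have hdiff : ‖(∑ n ∈ Icc 1 (w.M k), χ n * (w.seq n * p n)) -
      ∑ n ∈ Icc 1 (w.M k), ff χ ψ (w.t k) n‖ ≤ ε / 2 * w.M k := by
    rw [← sum_sub_distrib]
    have hterm : ∀ n ∈ Icc 1 (w.M k), ‖χ n * (w.seq n * p n) - ff χ ψ (w.t k) n‖ ≤
        if D * n ≤ w.M k then (2 : ℝ) else 0 := by
      intro n hn
      rw [mem_Icc] at hn
      by_cases hDn : D * n ≤ w.M k
      · rw [if_pos hDn]
        have h1 : ‖χ n * (w.seq n * p n)‖ ≤ 1 := by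
          rw [norm_mul]
          calc _ ≤ (1 : ℝ) * 1 := mul_le_mul (hb n) (hbd n) (norm_nonneg _) (by norm_num)
            _ = 1 := one_mul _
        have h2 : ‖ff χ ψ (w.t k) n‖ ≤ 1 := by
          unfold ff
          split_ifs
          · simp
          · rw [norm_mul, norm_mul, norm_ee, mul_one, RCLike.norm_conj]
            calc ‖χ n‖ * ‖ψ n‖ ≤ 1 * 1 := by
                  apply mul_le_mul (hb _) (DirichletCharacter.norm_le_one ψ _) (norm_nonneg _)
                    (by norm_num)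
              _ = 1 := one_mul _
        calc _ ≤ ‖χ n * (w.seq n * p n)‖ + ‖ff χ ψ (w.t k) n‖ := norm_sub_le _ _
          _ ≤ 2 := by linarith
      · rw [if_neg hDn]
        have hκ : w.κ n = k := by
          apply w.κ_eq hn.2
          intro k' hk'
          have h1 : w.M k' ≤ w.M (k - 1) := w.strictMono.monotone (by omega)
          have h2 := w.hgrow (k - 1)
          rw [Nat.sub_add_cancel (by omega)] at h2
          have h3 : 2 * D * w.M (k - 1) ≤ w.M k := h2
          have h4 : 2 * D * w.M (k - 1) < D * n := by omega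
          have h5 : D * (2 * w.M (k - 1)) < D * n := by
            calc _ = 2 * D * w.M (k - 1) := by ring
              _ < _ := h4
          have h6 := lt_of_mul_lt_mul_left' h5
          omega
        have hseq : w.seq n = ee (-(w.t k) * Real.log n) := by
          unfold WData.seq
          rw [hκ, if_pos (not_le.1 hDn)]
        have : χ n * (w.seq n * p n) = ff χ ψ (w.t k) n := by
          rw [hseq]
          unfold ff
          simp only [p]
          split_ifs <;> ring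
        rw [this]; simp
    calc ‖∑ n ∈ Icc 1 (w.M k), (χ n * (w.seq n * p n) - ff χ ψ (w.t k) n)‖
        ≤ ∑ n ∈ Icc 1 (w.M k), if D * n ≤ w.M k then (2 : ℝ) else 0 :=
          (norm_sum_le _ _).trans (sum_le_sum hterm)
      _ = 2 * (((Icc 1 (w.M k)).filter (fun n => D * n ≤ w.M k)).card : ℝ) := by
          rw [← sum_filter, sum_const, nsmul_eq_mul, mul_comm]
      _ ≤ 2 * (w.M k / D : ℝ) := by
          have hcard : ((Icc 1 (w.M k)).filter (fun n => D * n ≤ w.M k)).card ≤ w.M k / D := by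
            calc _ ≤ (Icc 1 (w.M k / D)).card := by
                  apply card_le_card
                  intro n hn
                  rw [mem_filter, mem_Icc] at hn
                  rw [mem_Icc]
                  refine ⟨hn.1.1, ?_⟩
                  rw [Nat.le_div_iff_mul_le (by omega), mul_comm]
                  exact hn.2
              _ = _ := by simp
          have : ((w.M k / D : ℕ) : ℝ) ≤ (w.M k : ℝ) / D := Nat.cast_div_le
          have h' : ((((Icc 1 (w.M k)).filter (fun n => D * n ≤ w.M k)).card : ℕ) : ℝ) ≤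
              ((w.M k / D : ℕ) : ℝ) := by exact_mod_cast hcard
          linarith
      _ ≤ ε / 2 * w.M k := by
          have hD0 : (0 : ℝ) < D := by exact_mod_cast (by omega : 0 < D)
          rw [div_le_iff₀ hε] at hDε
          rw [← mul_div_assoc, div_le_iff₀ hD0]
          nlinarith
  have hbig : ε * w.M k ≤ ‖∑ n ∈ Icc 1 (w.M k), ff χ ψ (w.t k) n‖ := hsf (a k)
  have hlow : ε / 2 * w.M k ≤ ‖∑ n ∈ Icc 1 (w.M k), χ n * (w.seq n * p n)‖ := by
    have := norm_sub_norm_le (∑ n ∈ Icc 1 (w.M k), ff χ ψ (w.t k) n)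
      (∑ n ∈ Icc 1 (w.M k), χ n * (w.seq n * p n))
    rw [norm_sub_rev] at this
    linarith
  simp only [Function.comp] at hk
  rw [norm_mul, norm_div, norm_one, Complex.norm_natCast, one_div, inv_mul_lt_iff₀ hMk0] at hk
  linarith

end Sarnak8c
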