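import Pool.Agent.Sarnak.Entropy

open Filter Topology Set Uniformity Dynamics

namespace Sarnak8c

lemma PolyCode.of_le {c : ℕ → ℕ → ℕ} (Q R : ℕ) (h : ∀ L, 1 ≤ L → ∀ j, c L j ≤ Q * L ^ R) :
    PolyCode c := by
  refine ⟨Q + R + 1, fun L hL j => ?_⟩
  have h1 : 0 < L ^ R := Nat.pow_pos hL
  calc c L j ≤ Q * L ^ R := h L hL j
    _ < (Q + 1) * L ^ R := by nlinarith
    _ ≤ (Q + R + 1) * L ^ (Q + R + 1) := by
        apply Nat.mul_le_mul (by omega)
        exact Nat.pow_le_pow_right hL (by omega)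

lemma PolyCode.pair {c d : ℕ → ℕ → ℕ} (hc : PolyCode c) (hd : PolyCode d) :
    PolyCode (fun L j => Nat.pair (c L j) (d L j)) := by
  obtain ⟨K, hK⟩ := hc
  obtain ⟨K', hK'⟩ := hd
  set M := K + K' with hM
  refine PolyCode.of_le (M ^ 2) (2 * M) fun L hL j => ?_
  have h0 : ∀ k, k ≤ M → k * L ^ k ≤ M * L ^ M := fun k hk =>
    Nat.mul_le_mul hk (Nat.pow_le_pow_right hL hk)
  have h1 : c L j < M * L ^ M := (hK L hL j).trans_le (h0 K (by omega))
  have h2 : d L j < M * L ^ M := (hK' L hL j).trans_le (h0 K' (by omega))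
  have h3 := Nat.pair_lt_max_add_one_sq (c L j) (d L j)
  have h4 : max (c L j) (d L j) + 1 ≤ M * L ^ M := by omega
  calc Nat.pair (c L j) (d L j) ≤ (max (c L j) (d L j) + 1) ^ 2 := h3.le
    _ ≤ (M * L ^ M) ^ 2 := Nat.pow_le_pow_left h4 2
    _ = M ^ 2 * L ^ (2 * M) := by rw [mul_pow, ← pow_mul, mul_comm M 2]

lemma polyCode_family (n : ℕ) (c : ℕ → ℕ → ℕ → ℕ) (h : ∀ r < n, PolyCode (c r)) :
    ∃ d : ℕ → ℕ → ℕ, PolyCode d ∧ ∀ L j j', d L j = d L j' → ∀ r < n, c r L j = c r L j' := by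
  induction n with
  | zero => exact ⟨fun _ _ => 0, PolyCode.of_le 0 0 (by simp), by simp⟩
  | succ n ih =>
    obtain ⟨d, hd, hd'⟩ := ih fun r hr => h r (by omega)
    refine ⟨fun L j => Nat.pair (d L j) (c n L j), hd.pair (h n (by omega)), ?_⟩
    intro L j j' he r hr
    have h1 := Nat.pair_eq_pair.1 he
    rcases Nat.lt_succ_iff_lt_or_eq.1 hr with h2 | h2
    · exact hd' L j j' h1.1 r h2
    · subst h2; exact h1.2

lemma PolyComplex.mul {a b : ℕ → ℂ} (ha : ∀ n, ‖a n‖ ≤ 1) (hb : ∀ n, ‖b n‖ ≤ 1)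
    (hca : PolyComplex a) (hcb : PolyComplex b) : PolyComplex (fun n => a n * b n) := by
  intro ε hε
  obtain ⟨c, hc, hcc⟩ := hca (ε / 2) (by positivity)
  obtain ⟨d, hd, hdd⟩ := hcb (ε / 2) (by positivity)
  refine ⟨fun L j => Nat.pair (c L j) (d L j), hc.pair hd, ?_⟩
  intro L hL j j' he i hi
  have h1 := Nat.pair_eq_pair.1 he
  have h2 := hcc L hL j j' h1.1 i hi
  have h3 := hdd L hL j j' h1.2 i hi
  calc ‖a (j + i) * b (j + i) - a (j' + i) * b (j' + i)‖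
      = ‖(a (j + i) - a (j' + i)) * b (j + i) + a (j' + i) * (b (j + i) - b (j' + i))‖ := by
        congr 1; ring
    _ ≤ ‖a (j + i) - a (j' + i)‖ * ‖b (j + i)‖ + ‖a (j' + i)‖ * ‖b (j + i) - b (j' + i)‖ := by
        refine (norm_add_le _ _).trans ?_
        rw [norm_mul, norm_mul]
    _ ≤ (ε / 2) * 1 + 1 * (ε / 2) := by
        gcongr
        · exact hb _
        · exact ha _
    _ = ε := by ring

lemma PolyComplex.periodic {a : ℕ → ℂ} (q : ℕ) (hq : 0 < q) (ha : ∀ n, a (n + q) = a n) :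
    PolyComplex a := by
  have hmod : ∀ n, a n = a (n % q) := by
    intro n
    have h1 : Function.Periodic a q := ha
    exact (h1.map_mod_nat n).symm
  intro ε hε
  refine ⟨fun _ j => j % q, PolyCode.of_le q 0 fun L _ j => ?_, ?_⟩
  · simpa using (Nat.mod_lt j hq).le
  · intro L _ j j' he i _
    have : a (j + i) = a (j' + i) := by
      have he' : j % q = j' % q := he
      rw [hmod (j + i), hmod (j' + i), Nat.add_mod, he', ← Nat.add_mod]
    rw [this]; simp [hε.le]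

/-- `e^{ix}` -/
noncomputable def ee (x : ℝ) : ℂ := Complex.exp (x * Complex.I)

lemma norm_ee (x : ℝ) : ‖ee x‖ = 1 := Complex.norm_exp_ofReal_mul_I x

lemma ee_add (x y : ℝ) : ee (x + y) = ee x * ee y := by
  unfold ee
  rw [← Complex.exp_add]
  congr 1
  push_cast; ring

lemma ee_int (n : ℤ) : ee (2 * Real.pi * n) = 1 := by
  unfold ee
  rw [Complex.exp_eq_one_iff]
  exact ⟨n, by push_cast; ring⟩

lemma norm_ee_sub_one (x : ℝ) : ‖ee x - 1‖ ≤ |x| := by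
  have h := Real.norm_exp_I_mul_ofReal_sub_one_le (x := x)
  unfold ee
  rw [mul_comm]
  simpa using h

lemma norm_ee_sub (x y : ℝ) : ‖ee x - ee y‖ ≤ |x - y| := by
  have h : ee x = ee y * ee (x - y) := by rw [← ee_add]; congr 1; ring
  calc ‖ee x - ee y‖ = ‖ee y * (ee (x - y) - 1)‖ := by rw [h]; congr 1; ring
    _ = ‖ee (x - y) - 1‖ := by rw [norm_mul, norm_ee, one_mul]
    _ ≤ |x - y| := norm_ee_sub_one _

lemma norm_ee_sub_mod (x y : ℝ) (n : ℤ) : ‖ee x - ee y‖ ≤ |x - y - 2 * Real.pi * n| := by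
  have h : ee y = ee (y + 2 * Real.pi * n) := by rw [ee_add, ee_int, mul_one]
  rw [h]
  refine (norm_ee_sub _ _).trans (le_of_eq ?_)
  congr 1; ring

/-- the phases: equality of the codes of the coefficients implies closeness -/
lemma phase_close (B : ℕ) (Q : ℕ) (hQ : 0 < Q) (L : ℕ) (hL : 1 ≤ L) (θ θ' : ℕ → ℝ)
    (h : ∀ r < B + 1, ⌊Int.fract (θ r / (2 * Real.pi)) * ((Q * L ^ r : ℕ) : ℝ)⌋₊ =
      ⌊Int.fract (θ' r / (2 * Real.pi)) * ((Q * L ^ r : ℕ) : ℝ)⌋₊) (i : ℕ) (hi : i < L) :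
    ‖ee (∑ r ∈ Finset.range (B + 1), θ r * (i : ℝ) ^ r) -
      ee (∑ r ∈ Finset.range (B + 1), θ' r * (i : ℝ) ^ r)‖ ≤
      2 * Real.pi * (B + 1) / Q := by
  have hQ' : (0 : ℝ) < Q := by exact_mod_cast hQ
  have hpi := Real.pi_pos
  set f : ℕ → ℝ := fun r => Int.fract (θ r / (2 * Real.pi)) with hf
  set f' : ℕ → ℝ := fun r => Int.fract (θ' r / (2 * Real.pi)) with hf'
  have hclose : ∀ r < B + 1, |f r - f' r| * (i : ℝ) ^ r ≤ 1 / Q := by
    intro r hr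
    have hN : (0 : ℝ) < ((Q * L ^ r : ℕ) : ℝ) := by
      have : 0 < Q * L ^ r := Nat.mul_pos hQ (Nat.pow_pos hL)
      exact_mod_cast this
    have h1 := h r hr
    have h2 : |f r * ((Q * L ^ r : ℕ) : ℝ) - f' r * ((Q * L ^ r : ℕ) : ℝ)| < 1 := by
      have a1 : 0 ≤ f r * ((Q * L ^ r : ℕ) : ℝ) := mul_nonneg (Int.fract_nonneg _) hN.le
      have a2 : 0 ≤ f' r * ((Q * L ^ r : ℕ) : ℝ) := mul_nonneg (Int.fract_nonneg _) hN.le
      have b1 := Nat.floor_le a1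
      have b2 := Nat.floor_le a2
      have c1 := Nat.lt_floor_add_one (f r * ((Q * L ^ r : ℕ) : ℝ))
      have c2 := Nat.lt_floor_add_one (f' r * ((Q * L ^ r : ℕ) : ℝ))
      change ⌊f r * ((Q * L ^ r : ℕ) : ℝ)⌋₊ = ⌊f' r * ((Q * L ^ r : ℕ) : ℝ)⌋₊ at h1
      rw [h1] at b1 c1
      rw [abs_lt]; constructor <;> linarith
    rw [← sub_mul, abs_mul, abs_of_pos hN] at h2
    have h3 : |f r - f' r| * ((Q : ℝ) * (L : ℝ) ^ r) ≤ 1 := by
      push_cast at h2; exact h2.le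
    have h4 : (i : ℝ) ^ r ≤ (L : ℝ) ^ r := by
      have : (i : ℝ) ≤ L := by exact_mod_cast hi.le
      gcongr
    rw [le_div_iff₀ hQ']
    calc |f r - f' r| * (i : ℝ) ^ r * Q ≤ |f r - f' r| * (L : ℝ) ^ r * Q := by gcongr
      _ = |f r - f' r| * ((Q : ℝ) * (L : ℝ) ^ r) := by ring
      _ ≤ 1 := h3
  set Z : ℤ := ∑ r ∈ Finset.range (B + 1),
    (⌊θ r / (2 * Real.pi)⌋ - ⌊θ' r / (2 * Real.pi)⌋) * (i : ℤ) ^ r with hZ
  have hdiff : (∑ r ∈ Finset.range (B + 1), θ r * (i : ℝ) ^ r) -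
      (∑ r ∈ Finset.range (B + 1), θ' r * (i : ℝ) ^ r) - 2 * Real.pi * Z =
      2 * Real.pi * ∑ r ∈ Finset.range (B + 1), (f r - f' r) * (i : ℝ) ^ r := by
    rw [hZ]
    push_cast
    rw [Finset.mul_sum, Finset.mul_sum, ← Finset.sum_sub_distrib, ← Finset.sum_sub_distrib]
    apply Finset.sum_congr rfl
    intro r _
    have e1 : θ r = 2 * Real.pi * (⌊θ r / (2 * Real.pi)⌋ + f r) := by
      rw [hf]; simp only [Int.floor_add_fract]; field_simp
    have e2 : θ' r = 2 * Real.pi * (⌊θ' r / (2 * Real.pi)⌋ + f' r) := by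
      rw [hf']; simp only [Int.floor_add_fract]; field_simp
    calc θ r * (i : ℝ) ^ r - θ' r * (i : ℝ) ^ r -
          2 * Real.pi * (((⌊θ r / (2 * Real.pi)⌋ : ℝ) - ⌊θ' r / (2 * Real.pi)⌋) * (i : ℝ) ^ r)
        = (2 * Real.pi * (⌊θ r / (2 * Real.pi)⌋ + f r)) * (i : ℝ) ^ r -
          (2 * Real.pi * (⌊θ' r / (2 * Real.pi)⌋ + f' r)) * (i : ℝ) ^ r -
          2 * Real.pi * (((⌊θ r / (2 * Real.pi)⌋ : ℝ) - ⌊θ' r / (2 * Real.pi)⌋) * (i : ℝ) ^ r) := by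
            rw [← e1, ← e2]
      _ = _ := by ring
  refine (norm_ee_sub_mod _ _ Z).trans ?_
  rw [hdiff, abs_mul, abs_of_pos (by positivity : (0:ℝ) < 2 * Real.pi)]
  have hsum : |∑ r ∈ Finset.range (B + 1), (f r - f' r) * (i : ℝ) ^ r| ≤ (B + 1) / Q := by
    refine (Finset.abs_sum_le_sum_abs _ _).trans ?_
    calc ∑ r ∈ Finset.range (B + 1), |(f r - f' r) * (i : ℝ) ^ r|
        ≤ ∑ r ∈ Finset.range (B + 1), (1 : ℝ) / Q := by
          apply Finset.sum_le_sum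
          intro r hr
          rw [abs_mul, abs_of_nonneg (by positivity : (0:ℝ) ≤ (i : ℝ) ^ r)]
          exact hclose r (Finset.mem_range.1 hr)
      _ = (B + 1) / Q := by simp; ring
  calc 2 * Real.pi * |∑ r ∈ Finset.range (B + 1), (f r - f' r) * (i : ℝ) ^ r|
      ≤ 2 * Real.pi * ((B + 1) / Q) := by gcongr
    _ = _ := by ring

end Sarnak8c
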