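import Pool.Agent.Sarnak.MeanValue

open Filter Topology Finset

namespace Sarnak8c

/-- bounded multiplicative functions on the positive integers -/
structure BM (f : ℕ → ℂ) : Prop where
  one : f 1 = 1
  mul : ∀ m n : ℕ, m.Coprime n → f (m * n) = f m * f n
  bd : ∀ n, ‖f n‖ ≤ 1

lemma one_sub_ge_exp {y : ℝ} (h0 : 0 ≤ y) (h1 : y ≤ 8 / 9) : Real.exp (-(9 * y)) ≤ 1 - y := by
  have hpos : 0 < 1 - y := by linarith
  have h2 := Real.one_sub_inv_le_log_of_pos hpos
  have h3 : (1 - y)⁻¹ ≤ 1 + 9 * y := by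
    rw [inv_le_comm₀ hpos (by positivity)]
    rw [inv_le_iff_one_le_mul₀ (by positivity)]
    nlinarith
  rw [← Real.le_log_iff_exp_le hpos]
  linarith

lemma norm_pow_term {f : ℕ → ℂ} (hf : BM f) (σ : ℝ) (p k : ℕ) :
    ‖f (p ^ k) * (aa σ (p ^ k) : ℂ)‖ ≤ (aa σ p) ^ k := by
  rw [norm_mul, aa_pow]
  have h1 : ‖(((aa σ p) ^ k : ℝ) : ℂ)‖ = (aa σ p) ^ k := by
    rw [Complex.norm_real, Real.norm_of_nonneg (pow_nonneg (aa_nonneg _ _) _)]
  rw [h1]
  calc ‖f (p ^ k)‖ * (aa σ p) ^ k ≤ 1 * (aa σ p) ^ k := by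
        apply mul_le_mul_of_nonneg_right (hf.bd _) (pow_nonneg (aa_nonneg _ _) _)
    _ = _ := one_mul _

lemma aa_prime_lt_one {σ : ℝ} (hσ : 0 < σ) {p : ℕ} (hp : 2 ≤ p) : aa σ p ≤ 1 / 2 := by
  refine (aa_le_inv hσ (by omega)).trans ?_
  have : (2 : ℝ) ≤ p := by exact_mod_cast hp
  exact one_div_le_one_div_of_le (by norm_num) this

lemma summable_pow_term {f : ℕ → ℂ} (hf : BM f) {σ : ℝ} (hσ : 0 < σ) {p : ℕ} (hp : 2 ≤ p) :
    Summable fun k : ℕ => ‖f (p ^ k) * (aa σ (p ^ k) : ℂ)‖ := by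
  have h1 := aa_prime_lt_one hσ hp
  exact Summable.of_nonneg_of_le (fun _ => norm_nonneg _) (fun k => norm_pow_term hf σ p k)
    (summable_geometric_of_lt_one (aa_nonneg _ _) (by linarith))

lemma factor_bound {f : ℕ → ℂ} (hf : BM f) {σ : ℝ} (hσ : 0 < σ) {p : ℕ} (hp : 3 ≤ p) :
    (1 - aa σ p)⁻¹ * Real.exp (-(9 * (aa σ p * (1 - (f p).re) + 2 * (aa σ p) ^ 2))) ≤
      ‖∑' k : ℕ, f (p ^ k) * (aa σ (p ^ k) : ℂ)‖ := by
  set u := aa σ p with hu
  have hu0 : 0 ≤ u := aa_nonneg _ _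
  have hu3 : u ≤ 1 / 3 := by
    refine (aa_le_inv hσ (by omega)).trans ?_
    have : (3 : ℝ) ≤ p := by exact_mod_cast hp
    exact one_div_le_one_div_of_le (by norm_num) this
  have hx : |(f p).re| ≤ 1 := (Complex.abs_re_le_norm _).trans (hf.bd p)
  rw [abs_le] at hx
  set x := (f p).re with hxdef
  have hs := (summable_pow_term hf hσ (by omega : 2 ≤ p))
  have hs' : Summable fun k : ℕ => f (p ^ k) * (aa σ (p ^ k) : ℂ) := hs.of_norm
  have hsplit := hs'.sum_add_tsum_nat_add 2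
  have htail : ‖∑' k : ℕ, f (p ^ (k + 2)) * (aa σ (p ^ (k + 2)) : ℂ)‖ ≤ u ^ 2 * (1 - u)⁻¹ := by
    have hg : HasSum (fun k : ℕ => u ^ (k + 2)) (u ^ 2 * (1 - u)⁻¹) := by
      have hfun : (fun k : ℕ => u ^ (k + 2)) = fun k : ℕ => u ^ 2 * u ^ k := by
        funext k; ring
      rw [hfun]
      exact (hasSum_geometric_of_lt_one hu0 (by linarith : u < 1)).mul_left (u ^ 2)
    exact tsum_of_norm_bounded hg fun k => norm_pow_term hf σ p (k + 2)
  rw [← hsplit]
  have hre : (∑ k ∈ range 2, f (p ^ k) * (aa σ (p ^ k) : ℂ)).re = 1 + u * x := by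
    rw [sum_range_succ, sum_range_one]
    simp only [pow_zero, pow_one, hf.one, aa_one, Complex.ofReal_one, mul_one, Complex.add_re,
      Complex.one_re, Complex.re_mul_ofReal]
    rw [← hu, ← hxdef]; ring
  have h1u : 0 < 1 - u := by linarith
  have hlow : 1 + u * x - u ^ 2 * (1 - u)⁻¹ ≤
      ‖∑ k ∈ range 2, f (p ^ k) * (aa σ (p ^ k) : ℂ) +
        ∑' k : ℕ, f (p ^ (k + 2)) * (aa σ (p ^ (k + 2)) : ℂ)‖ := by
    have h1 := Complex.re_le_norm (∑ k ∈ range 2, f (p ^ k) * (aa σ (p ^ k) : ℂ) +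
        ∑' k : ℕ, f (p ^ (k + 2)) * (aa σ (p ^ (k + 2)) : ℂ))
    rw [Complex.add_re, hre] at h1
    have h2 := (abs_le.1 (Complex.abs_re_le_norm
      (∑' k : ℕ, f (p ^ (k + 2)) * (aa σ (p ^ (k + 2)) : ℂ)))).1
    linarith
  refine le_trans ?_ hlow
  set y := u * (1 - x) + 2 * u ^ 2 with hy
  have hy0 : 0 ≤ y := by
    have : 0 ≤ u * (1 - x) := mul_nonneg hu0 (by linarith)
    positivity
  have hy1 : y ≤ 8 / 9 := by
    have h1 : u * (1 - x) ≤ (1 / 3) * 2 := by
      apply mul_le_mul hu3 (by linarith) (by linarith) (by norm_num)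
    have h2 : u ^ 2 ≤ (1 / 3) ^ 2 := by gcongr
    rw [hy]; nlinarith
  have h3 := one_sub_ge_exp hy0 hy1
  calc (1 - u)⁻¹ * Real.exp (-(9 * y)) ≤ (1 - u)⁻¹ * (1 - y) := by gcongr
    _ ≤ 1 + u * x - u ^ 2 * (1 - u)⁻¹ := by
        rw [inv_mul_le_iff₀ h1u]
        have : (1 - u) * (1 + u * x - u ^ 2 * (1 - u)⁻¹) = (1 - u) * (1 + u * x) - u ^ 2 := by
          field_simp
        rw [this, hy]
        nlinarith [mul_nonneg hu0 hu0]


lemma sum_inv_sq_le (s : Finset ℕ) (hs : ∀ p ∈ s, 1 ≤ p) : ∑ p ∈ s, (1 / (p : ℝ)) ^ 2 ≤ 2 := by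
  have hsub : s ⊆ Ioo 0 (s.sup id + 1) := by
    intro p hp
    rw [mem_Ioo]
    refine ⟨hs p hp, Nat.lt_succ_of_le ?_⟩
    exact le_sup (f := id) hp
  calc ∑ p ∈ s, (1 / (p : ℝ)) ^ 2 ≤ ∑ p ∈ Ioo 0 (s.sup id + 1), (1 / (p : ℝ)) ^ 2 :=
        sum_le_sum_of_subset_of_nonneg hsub fun _ _ _ => by positivity
    _ = ∑ p ∈ Ioo 0 (s.sup id + 1), ((p : ℝ) ^ 2)⁻¹ := by
        apply sum_congr rfl; intro p _; rw [one_div, inv_pow]
    _ ≤ 2 / ((0 : ℕ) + 1) := sum_Ioo_inv_sq_le 0 _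
    _ = 2 := by norm_num

/-- the distance sum over the odd primes up to `N` -/
noncomputable def dist3 (f : ℕ → ℂ) (N : ℕ) : ℝ :=
  ∑ p ∈ (N + 1).primesBelow.filter (3 ≤ ·), (1 - (f p).re) / p

lemma smooth_lower {f : ℕ → ℂ} (hf : BM f) (h2 : ∀ k, 1 ≤ k → f (2 ^ k) = 0) {σ : ℝ}
    (hσ : 0 < σ) (N : ℕ) {C : ℝ} (hC : dist3 f N ≤ C) :
    Real.exp (-(9 * C + 37)) * ∑ n ∈ range (N + 1), aa σ n ≤
      ‖∑' m : (N + 1).smoothNumbers, f m * (aa σ m : ℂ)‖ := by
  have hE := (EulerProduct.summable_and_hasSum_smoothNumbers_prod_primesBelow_tsum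
    (f := fun n => f n * (aa σ n : ℂ)) (by simp [hf.one, aa_one])
    (by
      intro m n hmn
      simp only [hf.mul m n hmn, aa_mul]
      push_cast; ring)
    (fun {p} hp => summable_pow_term hf hσ hp.two_le) (N + 1)).2
  let g : ℕ →* ℝ := ⟨⟨aa σ, aa_one σ⟩, aa_mul σ⟩
  have hG := EulerProduct.summable_and_hasSum_smoothNumbers_prod_primesBelow_geometric
    (f := g) (by
      intro p hp
      have h1 := aa_prime_lt_one hσ hp.two_le
      change ‖aa σ p‖ < 1
      rw [Real.norm_of_nonneg (aa_nonneg _ _)]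
      linarith) (N + 1)
  rw [hE.tsum_eq, norm_prod]
  have hGsum : ∑ n ∈ range (N + 1), aa σ n ≤ ∏ p ∈ (N + 1).primesBelow, (1 - aa σ p)⁻¹ := by
    have h1 : HasSum (fun m : (N + 1).smoothNumbers => aa σ m)
      (∏ p ∈ (N + 1).primesBelow, (1 - aa σ p)⁻¹) := hG.2
    rw [← h1.tsum_eq]
    have h3 : ∑ n ∈ range (N + 1), aa σ n = ∑ n ∈ (range (N + 1)).erase 0, aa σ n := by
      symm
      apply sum_erase
      exact aa_zero hσ
    rw [h3]
    have h4 : ∀ n ∈ (range (N + 1)).erase 0, n ∈ (N + 1).smoothNumbers := by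
      intro n hn
      simp only [mem_erase, mem_range] at hn
      exact Nat.mem_smoothNumbers_of_lt (by omega) hn.2
    rw [← sum_attach]
    let e : ((range (N + 1)).erase 0).attach → (N + 1).smoothNumbers := fun x => ⟨x.1.1, h4 _ x.1.2⟩
    have h5 : ∑ x ∈ ((range (N + 1)).erase 0).attach, aa σ x.1 =
        ∑ y ∈ (((range (N + 1)).erase 0).attach).image (fun x => (⟨x.1, h4 _ x.2⟩ : (N + 1).smoothNumbers)),
          aa σ y := by
      rw [sum_image]
      intro a _ b _ hab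
      have := congrArg (fun z : (N + 1).smoothNumbers => (z : ℕ)) hab
      exact Subtype.ext this
    rw [h5]
    exact h1.summable.sum_le_tsum _ (fun _ _ => aa_nonneg _ _)
  set b : ℕ → ℝ := fun p => if p = 2 then 1 else
    9 * (aa σ p * (1 - (f p).re) + 2 * (aa σ p) ^ 2) with hb
  have hfac : ∀ p ∈ (N + 1).primesBelow, (1 - aa σ p)⁻¹ * Real.exp (-(b p)) ≤
      ‖∑' k : ℕ, f (p ^ k) * (aa σ (p ^ k) : ℂ)‖ := by
    intro p hp
    have hpp := Nat.prime_of_mem_primesBelow hp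
    by_cases hp2 : p = 2
    · subst hp2
      have h1 : ∑' k : ℕ, f (2 ^ k) * (aa σ (2 ^ k) : ℂ) = 1 := by
        rw [tsum_eq_single 0]
        · simp [hf.one, aa_one]
        · intro k hk
          rw [h2 k (by omega)]; simp
      rw [h1, norm_one]
      have h3 := aa_prime_lt_one hσ (le_refl 2)
      have h4 : (1 - aa σ 2)⁻¹ ≤ 2 := by
        rw [inv_le_comm₀ (by linarith) (by norm_num)]
        linarith
      have h5 : Real.exp (-(b 2)) ≤ 1 / 2 := by
        simp only [hb, if_true]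
        have := Real.add_one_le_exp (1 : ℝ)
        rw [Real.exp_neg, one_div]
        apply inv_anti₀ (by norm_num)
        linarith
      calc (1 - aa σ 2)⁻¹ * Real.exp (-(b 2)) ≤ 2 * (1 / 2) := by
            apply mul_le_mul h4 h5 (Real.exp_pos _).le (by norm_num)
        _ = 1 := by norm_num
    · have hp3 : 3 ≤ p := by
        have := hpp.two_le
        omega
      have := factor_bound hf hσ hp3
      simp only [hb, if_neg hp2]
      exact this
  have hbsum : ∑ p ∈ (N + 1).primesBelow, b p ≤ 9 * C + 37 := by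
    have h1 : ∑ p ∈ (N + 1).primesBelow, b p ≤
        ∑ p ∈ (N + 1).primesBelow, ((if p = 2 then (1 : ℝ) else 0) +
          ((if 3 ≤ p then 9 * ((1 - (f p).re) / p) else 0) + 18 * (1 / (p : ℝ)) ^ 2)) := by
      apply sum_le_sum
      intro p hp
      have hpp := Nat.prime_of_mem_primesBelow hp
      by_cases hp2 : p = 2
      · simp only [hb, if_pos hp2]
        subst hp2
        norm_num
      · have hp3 : 3 ≤ p := by
          have := hpp.two_le
          omega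
        simp only [hb, if_neg hp2, if_pos hp3]
        have hre : (f p).re ≤ 1 := (Complex.re_le_norm _).trans (hf.bd p)
        have h3 := aa_le_inv hσ (by omega : 1 ≤ p)
        have h4 := aa_nonneg σ p
        have h5 : aa σ p * (1 - (f p).re) ≤ (1 - (f p).re) / p := by
          calc aa σ p * (1 - (f p).re) ≤ (1 / p) * (1 - (f p).re) :=
                mul_le_mul_of_nonneg_right h3 (by linarith)
            _ = _ := by ring
        have h6 : (aa σ p) ^ 2 ≤ (1 / (p : ℝ)) ^ 2 := by gcongr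
        linarith
    refine h1.trans ?_
    rw [sum_add_distrib, sum_add_distrib, ← mul_sum]
    have h3 : ∑ p ∈ (N + 1).primesBelow, (if p = 2 then (1 : ℝ) else 0) ≤ 1 := by
      rw [sum_ite_eq']
      split_ifs <;> norm_num
    have h4 : ∑ p ∈ (N + 1).primesBelow, (if 3 ≤ p then 9 * ((1 - (f p).re) / p) else 0) =
        9 * dist3 f N := by
      rw [dist3, mul_sum, sum_filter]
    have h5 := sum_inv_sq_le (N + 1).primesBelow fun p hp =>
      (Nat.prime_of_mem_primesBelow hp).one_lt.le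
    rw [h4]
    linarith
  calc Real.exp (-(9 * C + 37)) * ∑ n ∈ range (N + 1), aa σ n
      ≤ Real.exp (-(∑ p ∈ (N + 1).primesBelow, b p)) * ∏ p ∈ (N + 1).primesBelow, (1 - aa σ p)⁻¹ := by
        apply mul_le_mul _ hGsum (sum_nonneg fun _ _ => aa_nonneg _ _) (Real.exp_pos _).le
        apply Real.exp_le_exp.2
        linarith
    _ = ∏ p ∈ (N + 1).primesBelow, ((1 - aa σ p)⁻¹ * Real.exp (-(b p))) := by
        rw [prod_mul_distrib, ← Real.exp_sum, mul_comm, ← sum_neg_distrib]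
    _ ≤ _ := by
        apply Finset.prod_le_prod
        · intro p hp
          have := aa_prime_lt_one hσ (Nat.prime_of_mem_primesBelow hp).two_le
          have : 0 < 1 - aa σ p := by linarith
          positivity
        · exact hfac

end Sarnak8c
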