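import Pool.Agent.Sarnak.Det
import Pool.Agent.Sarnak.MeanValue2

open Filter Topology Finset

namespace Sarnak8c

lemma tendsto_mean_iff (u : ℕ → ℂ) :
    Tendsto (fun N : ℕ => (1 / (N : ℂ)) * ∑ n ∈ Icc 1 N, u n) atTop (𝓝 0) ↔
      ∀ ε : ℝ, 0 < ε → ∀ᶠ N : ℕ in atTop, ‖∑ n ∈ Icc 1 N, u n‖ ≤ ε * N := by
  constructor
  · intro h ε hε
    have h1 := h.norm
    rw [norm_zero] at h1
    filter_upwards [h1.eventually (gt_mem_nhds hε), eventually_ge_atTop 1] with N hN hN1
    have hN0 : (0 : ℝ) < N := by exact_mod_cast hN1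
    rw [norm_mul, norm_div, norm_one, Complex.norm_natCast, one_div, inv_mul_lt_iff₀ hN0] at hN
    linarith
  · intro h
    rw [tendsto_zero_iff_norm_tendsto_zero, Metric.tendsto_atTop']
    intro ε hε
    obtain ⟨N0, hN0⟩ := (h (ε / 2) (by positivity)).exists_forall_of_atTop
    refine ⟨max N0 1, fun N hN => ?_⟩
    have h1 := hN0 N (by omega)
    have hNpos : (0 : ℝ) < N := by exact_mod_cast (by omega : 0 < N)
    rw [Real.dist_0_eq_abs, abs_norm, norm_mul, norm_div, norm_one, Complex.norm_natCast, one_div,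
      inv_mul_lt_iff₀ hNpos]
    nlinarith

lemma sum_dvd_eq (F : ℕ → ℂ) (p N : ℕ) (hp : 0 < p) :
    ∑ k ∈ (Icc 1 N).filter (p ∣ ·), F k = ∑ k ∈ Icc 1 (N / p), F (p * k) := by
  symm
  apply sum_nbij (fun k => p * k)
  · intro k hk
    simp only [mem_filter, mem_Icc] at hk ⊢
    have h1 : 1 ≤ p * k := Nat.mul_pos hp hk.1
    have h2 : p * k ≤ N := by
      rw [mul_comm]; exact (Nat.le_div_iff_mul_le hp).1 hk.2
    exact ⟨⟨h1, h2⟩, dvd_mul_right _ _⟩
  · intro a _ b _ hab
    exact Nat.eq_of_mul_eq_mul_left hp hab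
  · intro k hk
    simp only [coe_filter, Set.mem_ofPred_eq, mem_Icc] at hk
    obtain ⟨⟨h1, h2⟩, c, rfl⟩ := hk
    refine ⟨c, ?_, rfl⟩
    simp only [coe_Icc, Set.mem_Icc]
    refine ⟨?_, ?_⟩
    · rcases Nat.eq_zero_or_pos c with h | h
      · subst h; simp at h1
      · exact h
    · rw [Nat.le_div_iff_mul_le hp, mul_comm]; exact h2
  · intro k _; rfl

lemma switch_prime {f g : ℕ → ℂ} (hf : OrthDet f) (hgb : ∀ n, ‖g n‖ ≤ 1)
    {p : ℕ} (hp : p.Prime) (hg : ∀ a k : ℕ, ¬ p ∣ k → g (p ^ a * k) = g (p ^ a) * f k) :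
    OrthDet g := by
  intro z hz
  obtain ⟨B, hB, hzB⟩ := hz.bounded
  have hp2 : 2 ≤ p := hp.two_le
  set R : ℕ → ℕ → ℂ := fun a N => ∑ k ∈ Icc 1 N, g (p ^ a * k) * z (p ^ a * k) with hR
  have key : ∀ j a : ℕ, ∀ ε : ℝ, 0 < ε → ∀ᶠ N : ℕ in atTop, ‖R a N‖ ≤ (B / 2 ^ j + ε) * N := by
    intro j
    induction j with
    | zero =>
      intro a ε hε
      refine Eventually.of_forall fun N => ?_
      calc ‖R a N‖ ≤ ∑ k ∈ Icc 1 N, ‖g (p ^ a * k) * z (p ^ a * k)‖ := norm_sum_le _ _
        _ ≤ ∑ k ∈ Icc 1 N, B := by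
            apply sum_le_sum
            intro k _
            rw [norm_mul]
            calc _ ≤ 1 * B := mul_le_mul (hgb _) (hzB _) (norm_nonneg _) (by norm_num)
              _ = B := one_mul _
        _ = B * N := by simp [mul_comm]
        _ ≤ (B / 2 ^ 0 + ε) * N := by
            rw [pow_zero, div_one]
            gcongr
            linarith
    | succ j ih =>
      intro a ε hε
      let w : ℕ → ℂ := fun k => if p ∣ k then 0 else 1
      have hw : ∀ n, w (n + p) = w n := by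
        intro n
        simp only [w, Nat.dvd_add_self_right]
      have hdet : Det (fun k => z (p ^ a * k) * w k) :=
        (hz.comp_mul (p ^ a) (Nat.pow_pos (by omega))).mul_periodic p (by omega) hw
      have h1 := (tendsto_mean_iff _).1 (hf _ hdet) (ε / 2) (by positivity)
      have h2 := ih (a + 1) ε hε
      have h3 : ∀ᶠ N : ℕ in atTop, ‖R (a + 1) (N / p)‖ ≤ (B / 2 ^ j + ε) * ((N / p : ℕ) : ℝ) :=
        (Nat.tendsto_div_const_atTop (by omega : p ≠ 0)).eventually h2
      filter_upwards [h1, h3] with N hN1 hN2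
      have hsplit : R a N = g (p ^ a) * (∑ k ∈ Icc 1 N, f k * (z (p ^ a * k) * w k)) +
          R (a + 1) (N / p) := by
        have e1 : R a N = ∑ k ∈ (Icc 1 N).filter (p ∣ ·), g (p ^ a * k) * z (p ^ a * k) +
            ∑ k ∈ (Icc 1 N).filter (fun k => ¬ p ∣ k), g (p ^ a * k) * z (p ^ a * k) :=
          (sum_filter_add_sum_filter_not _ _ _).symm
        rw [e1, sum_dvd_eq (fun k => g (p ^ a * k) * z (p ^ a * k)) p N (by omega), add_comm]
        congr 1
        · rw [mul_sum, sum_filter]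
          apply sum_congr rfl
          intro k _
          by_cases hk : p ∣ k
          · simp [w, hk]
          · simp only [w, hk, not_false_eq_true, if_true, if_false, mul_one]
            rw [hg a k hk]; ring
        · rw [hR]
          apply sum_congr rfl
          intro k _
          have : p ^ a * (p * k) = p ^ (a + 1) * k := by ring
          rw [this]
      have hdiv : ((N / p : ℕ) : ℝ) ≤ (N : ℝ) / 2 := by
        calc ((N / p : ℕ) : ℝ) ≤ (N : ℝ) / p := Nat.cast_div_le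
          _ ≤ (N : ℝ) / 2 := by
              have : (2 : ℝ) ≤ p := by exact_mod_cast hp2
              gcongr
      rw [hsplit]
      calc _ ≤ ‖g (p ^ a) * (∑ k ∈ Icc 1 N, f k * (z (p ^ a * k) * w k))‖ +
            ‖R (a + 1) (N / p)‖ := norm_add_le _ _
        _ ≤ 1 * (ε / 2 * N) + (B / 2 ^ j + ε) * ((N : ℝ) / 2) := by
            rw [norm_mul]
            apply add_le_add
            · exact mul_le_mul (hgb _) hN1 (norm_nonneg _) (by norm_num)
            · refine hN2.trans ?_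
              have : 0 ≤ B / 2 ^ j + ε := by positivity
              gcongr
        _ = (B / 2 ^ (j + 1) + ε) * N := by
            rw [pow_succ]; field_simp; ring
  rw [tendsto_mean_iff]
  intro ε hε
  obtain ⟨j, hj⟩ : ∃ j : ℕ, B / 2 ^ j ≤ ε / 2 := by
    obtain ⟨j, hj⟩ := pow_unbounded_of_one_lt (B / (ε / 2)) (by norm_num : (1 : ℝ) < 2)
    refine ⟨j, ?_⟩
    rw [div_le_iff₀ (by positivity)]
    rw [div_lt_iff₀ (by positivity)] at hj
    linarith
  filter_upwards [key j 0 (ε / 2) (by positivity)] with N hN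
  have h0 : R 0 N = ∑ n ∈ Icc 1 N, g n * z n := by simp [hR]
  rw [← h0]
  refine hN.trans ?_
  gcongr
  linarith

/-- `f` on the primes `≤ y`, `g` on the primes `> y` -/
noncomputable def mix (f g : ℕ → ℂ) (y n : ℕ) : ℂ :=
  n.factorization.prod fun p a => if p ≤ y then f (p ^ a) else g (p ^ a)

lemma BM.eq_prod {f : ℕ → ℂ} (hf : BM f) {n : ℕ} (hn : n ≠ 0) :
    f n = n.factorization.prod fun p a => f (p ^ a) :=
  Nat.multiplicative_factorization f (fun x y h => hf.mul x y h) hf.one hn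

lemma norm_prod_le_one {ι : Type*} (s : Finset ι) (h : ι → ℂ) (hh : ∀ i ∈ s, ‖h i‖ ≤ 1) :
    ‖∏ i ∈ s, h i‖ ≤ 1 := by
  rw [norm_prod]
  exact Finset.prod_le_one (fun _ _ => norm_nonneg _) hh

lemma norm_mix {f g : ℕ → ℂ} (hf : BM f) (hg : BM g) (y n : ℕ) : ‖mix f g y n‖ ≤ 1 := by
  unfold mix
  apply norm_prod_le_one
  intro p _
  by_cases h : p ≤ y
  · simp only [h, if_true]
    exact hf.bd _
  · simp only [h, if_false]
    exact hg.bd _

lemma mix_mul {f g : ℕ → ℂ} (y : ℕ) {m n : ℕ} (h : m.Coprime n) :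
    mix f g y (m * n) = mix f g y m * mix f g y n := by
  unfold mix
  rw [Nat.factorization_mul_of_coprime h, ← Finsupp.prod_add_index_of_disjoint]
  exact h.disjoint_primeFactors

lemma mix_zero {f g : ℕ → ℂ} (hg : BM g) {n : ℕ} (hn : n ≠ 0) : mix f g 0 n = g n := by
  rw [hg.eq_prod hn]
  unfold mix
  apply Finsupp.prod_congr
  intro p hp
  have hpp := Nat.prime_of_mem_primeFactors hp
  rw [if_neg]
  exact not_le.2 hpp.pos

lemma mix_succ_not_dvd {f g : ℕ → ℂ} (y : ℕ) {n : ℕ} (h : ¬ (y + 1) ∣ n) :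
    mix f g (y + 1) n = mix f g y n := by
  unfold mix
  apply Finsupp.prod_congr
  intro p hp
  have hne : p ≠ y + 1 := by
    intro he
    exact h (he ▸ Nat.dvd_of_mem_primeFactors hp)
  have : (p ≤ y + 1) ↔ (p ≤ y) := by omega
  simp only [this]

lemma mix_succ_not_prime {f g : ℕ → ℂ} (y : ℕ) (h : ¬ (y + 1).Prime) (n : ℕ) :
    mix f g (y + 1) n = mix f g y n := by
  unfold mix
  apply Finsupp.prod_congr
  intro p hp
  have hpp := Nat.prime_of_mem_primeFactors hp
  have hne : p ≠ y + 1 := by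
    rintro rfl
    exact h hpp
  have : (p ≤ y + 1) ↔ (p ≤ y) := by omega
  simp only [this]

lemma OrthDet.congr {f g : ℕ → ℂ} (hf : OrthDet f) (h : ∀ n, 1 ≤ n → f n = g n) : OrthDet g := by
  intro z hz
  refine (hf z hz).congr fun N => ?_
  congr 1
  apply sum_congr rfl
  intro n hn
  rw [h n (mem_Icc.1 hn).1]

lemma orthDet_mix {f g : ℕ → ℂ} (hf : BM f) (hg : BM g) (h : OrthDet g) (y : ℕ) :
    OrthDet (mix f g y) := by
  induction y with
  | zero => exact h.congr fun n hn => (mix_zero hg (by omega)).symm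
  | succ y ih =>
    by_cases hp : (y + 1).Prime
    · refine switch_prime ih (fun n => norm_mix hf hg _ n) hp fun a k hk => ?_
      have hcop : ((y + 1) ^ a).Coprime k := Nat.Coprime.pow_left a ((Nat.Prime.coprime_iff_not_dvd hp).2 hk)
      rw [mix_mul _ hcop, mix_succ_not_dvd y hk]
    · exact ih.congr fun n _ => (mix_succ_not_prime y hp n).symm

end Sarnak8c
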