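import Pool.Agent.Sarnak.TK2
import Pool.Agent.Sarnak.Switch
import Pool.Agent.Sarnak.Codes

open Filter Topology Finset ComplexConjugate

namespace Sarnak8c

lemma conj_ee' (x : ℝ) : conj (ee x) = ee (-x) := by
  unfold ee
  rw [← Complex.exp_conj]
  congr 1
  simp

lemma good_prime {F G : ℂ} (hF : ‖F‖ ≤ 1) (hG : ‖G‖ ≤ 1) (h : 1 - (F * conj G).re ≤ 1 / 2) :
    (F * conj G).arg ^ 2 ≤ 5 * (1 - (F * conj G).re) ∧
      ‖F - ee (F * conj G).arg * G‖ ≤ 1 - (F * conj G).re := by
  set z := F * conj G with hz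
  set θ := z.arg with hθ
  have hzn : ‖z‖ = ‖F‖ * ‖G‖ := by rw [hz, norm_mul, RCLike.norm_conj]
  have hzn1 : ‖z‖ ≤ 1 := by
    rw [hzn]
    calc ‖F‖ * ‖G‖ ≤ 1 * 1 := mul_le_mul hF hG (norm_nonneg _) (by norm_num)
      _ = 1 := one_mul _
  have hre : z.re = ‖z‖ * Real.cos θ := (Complex.norm_mul_cos_arg z).symm
  have hrepos : 0 < z.re := by linarith
  have hzpos : 0 < ‖z‖ := by
    rw [norm_pos_iff]
    rintro h0
    rw [h0] at hrepos
    simp at hrepos
  have hcos : 0 < Real.cos θ := by
    by_contra hc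
    have := mul_nonpos_of_nonneg_of_nonpos hzpos.le (not_lt.1 hc)
    linarith
  have hcos1 : z.re ≤ Real.cos θ := by
    rw [hre]
    calc ‖z‖ * Real.cos θ ≤ 1 * Real.cos θ := by gcongr
      _ = _ := one_mul _
  constructor
  · have h1 := Real.cos_le_one_sub_mul_cos_sq (x := θ) (Complex.abs_arg_le_pi z)
    have hpi := Real.pi_pos
    have hpi2 : Real.pi ^ 2 ≤ 10 := by
      have := Real.pi_lt_d2
      nlinarith
    have h2 : 2 / Real.pi ^ 2 * θ ^ 2 ≤ 1 - z.re := by linarith
    have h3 : θ ^ 2 ≤ Real.pi ^ 2 / 2 * (1 - z.re) := by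
      have h4 : Real.pi ^ 2 / 2 * (2 / Real.pi ^ 2 * θ ^ 2) = θ ^ 2 := by field_simp
      rw [← h4]
      apply mul_le_mul_of_nonneg_left h2 (by positivity)
    have h5 : 0 ≤ 1 - z.re := by
      have := (Complex.re_le_norm z).trans hzn1
      linarith
    nlinarith
  · have hzee : z = ‖z‖ * ee θ := (Complex.norm_mul_exp_arg_mul_I z).symm
    have h1 : (F * conj (ee θ * G)).re = ‖z‖ := by
      have : F * conj (ee θ * G) = z * ee (-θ) := by
        rw [map_mul, conj_ee', hz]; ring
      rw [this, hzee, mul_assoc, ← ee_add]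
      simp [ee]
    have h2 : Complex.normSq (F - ee θ * G) = (‖F‖ - ‖G‖) ^ 2 := by
      rw [Complex.normSq_sub, h1, Complex.normSq_eq_norm_sq, Complex.normSq_eq_norm_sq, norm_mul,
        norm_ee, one_mul, hzn]
      ring
    have h3 : ‖F - ee θ * G‖ = |‖F‖ - ‖G‖| := by
      rw [Complex.normSq_eq_norm_sq] at h2
      rw [← abs_of_nonneg (norm_nonneg (F - ee θ * G))]
      exact (sq_eq_sq_iff_abs_eq_abs _ _).1 h2
    rw [h3]
    have h4 : z.re ≤ ‖F‖ * ‖G‖ := by rw [← hzn]; exact Complex.re_le_norm z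
    have h5 : ‖F‖ * ‖G‖ ≤ ‖F‖ := by
      calc _ ≤ ‖F‖ * 1 := by gcongr
        _ = _ := mul_one _
    have h6 : ‖F‖ * ‖G‖ ≤ ‖G‖ := by
      calc _ ≤ 1 * ‖G‖ := by gcongr
        _ = _ := one_mul _
    rw [abs_le]
    constructor <;> linarith

lemma norm_prod_sub {ι : Type*} [DecidableEq ι] (s : Finset ι) (a b : ι → ℂ)
    (ha : ∀ i ∈ s, ‖a i‖ ≤ 1) (hb : ∀ i ∈ s, ‖b i‖ ≤ 1) :
    ‖∏ i ∈ s, a i - ∏ i ∈ s, b i‖ ≤ ∑ i ∈ s, ‖a i - b i‖ := by
  induction s using Finset.induction_on with
  | empty => simp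
  | insert i s his ih =>
    rw [prod_insert his, prod_insert his, sum_insert his]
    have h1 := ih (fun j hj => ha j (mem_insert_of_mem hj)) (fun j hj => hb j (mem_insert_of_mem hj))
    have h2 : a i * ∏ j ∈ s, a j - b i * ∏ j ∈ s, b j =
        (a i - b i) * ∏ j ∈ s, a j + b i * (∏ j ∈ s, a j - ∏ j ∈ s, b j) := by ring
    rw [h2]
    calc _ ≤ ‖a i - b i‖ * ‖∏ j ∈ s, a j‖ + ‖b i‖ * ‖∏ j ∈ s, a j - ∏ j ∈ s, b j‖ := by
          refine (norm_add_le _ _).trans ?_
          rw [norm_mul, norm_mul]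
      _ ≤ ‖a i - b i‖ * 1 + 1 * ∑ j ∈ s, ‖a j - b j‖ := by
          apply add_le_add
          · apply mul_le_mul_of_nonneg_left _ (norm_nonneg _)
            exact norm_prod_le_one s a fun j hj => ha j (mem_insert_of_mem hj)
          · exact mul_le_mul (hb i (mem_insert_self i s)) h1 (norm_nonneg _) (by norm_num)
      _ = _ := by ring

lemma ee_sum {ι : Type*} [DecidableEq ι] (s : Finset ι) (θ : ι → ℝ) :
    ee (∑ i ∈ s, θ i) = ∏ i ∈ s, ee (θ i) := by
  induction s using Finset.induction_on with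
  | empty => simp [ee]
  | insert i s his ih => rw [sum_insert his, prod_insert his, ee_add, ih]

lemma primeFactors_eq {n N : ℕ} (h1 : 1 ≤ n) (h2 : n ≤ N) :
    n.primeFactors = (PN N).filter (· ∣ n) := by
  ext p
  simp only [Nat.mem_primeFactors, PN, mem_filter, mem_range]
  constructor
  · rintro ⟨hp, hd, h0⟩
    have := Nat.le_of_dvd (by omega) hd
    exact ⟨⟨by omega, hp⟩, hd⟩
  · rintro ⟨⟨_, hp⟩, hd⟩
    exact ⟨hp, hd, by omega⟩

/-- summability gives small tails -/
lemma small_tail {u : ℕ → ℝ} (hu : Summable u) (ε : ℝ) (hε : 0 < ε) :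
    ∃ y : ℕ, ∀ s : Finset ℕ, (∀ p ∈ s, y < p) → ∑ p ∈ s, u p ≤ ε := by
  obtain ⟨s0, hs0⟩ := summable_iff_vanishing_norm.1 hu ε hε
  refine ⟨s0.sup id, fun s hs => ?_⟩
  have hd : Disjoint s s0 := by
    rw [disjoint_left]
    intro p hp hp0
    have h1 := hs p hp
    have h2 : p ≤ s0.sup id := le_sup (f := id) hp0
    omega
  exact (le_abs_self _).trans (hs0 s hd).le

theorem approx {f g : ℕ → ℂ} (hf : BM f) (hg : BM g)
    (hs : Summable fun p : ℕ => if p.Prime then (1 - (f p * conj (g p)).re) / p else 0)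
    (ε : ℝ) (hε : 0 < ε) : ∃ y : ℕ, ∀ N : ℕ, ∃ c : ℂ, ‖c‖ = 1 ∧
      ∑ n ∈ Icc 1 N, ‖f n - c * mix f g y n‖ ≤ ε * N := by
  set η : ℕ → ℝ := fun p => 1 - (f p * conj (g p)).re with hη
  have hη0 : ∀ p, 0 ≤ η p := by
    intro p
    have h1 : ‖f p * conj (g p)‖ ≤ 1 := by
      rw [norm_mul, RCLike.norm_conj]
      calc _ ≤ (1 : ℝ) * 1 := mul_le_mul (hf.bd p) (hg.bd p) (norm_nonneg _) (by norm_num)
        _ = 1 := one_mul _
    have := (Complex.re_le_norm (f p * conj (g p))).trans h1
    simp only [hη]; linarith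
  set ε' : ℝ := min (ε / 8) (ε ^ 2 / 180) with hε'
  have hε'0 : 0 < ε' := by positivity
  have hsq : Summable fun p : ℕ => (1 : ℝ) / (p : ℝ) ^ 2 :=
    Real.summable_one_div_nat_pow.2 (by norm_num)
  obtain ⟨y, hy⟩ := small_tail (hs.add hsq) ε' hε'0
  have htail : ∀ s : Finset ℕ, (∀ p ∈ s, y < p ∧ p.Prime) →
      ∑ p ∈ s, (η p / p + 1 / (p : ℝ) ^ 2) ≤ ε' := by
    intro s hs'
    refine le_trans (le_of_eq ?_) (hy s fun p hp => (hs' p hp).1)
    apply sum_congr rfl
    intro p hp
    rw [if_pos (hs' p hp).2]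
  refine ⟨y, fun N => ?_⟩
  classical
  set θ : ℕ → ℝ := fun p => if y < p ∧ η p ≤ 1 / 2 then (f p * conj (g p)).arg else 0 with hθ
  obtain ⟨A, hA⟩ := turan_kubilius N θ
  refine ⟨ee A, norm_ee A, ?_⟩
  set Θ : ℕ → ℝ := fun n => ∑ p ∈ PN N, (if p ∣ n then θ p else 0) with hΘ
  -- first comparison
  have h1 : ∀ n ∈ Icc 1 N, ‖f n - ee (Θ n) * mix f g y n‖ ≤
      ∑ p ∈ PN N, (if p ∣ n then (if y < p then 4 * η p + 2 * (if p * p ∣ n then 1 else 0) else 0) else 0) := by
    intro n hn
    rw [mem_Icc] at hn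
    have hn0 : n ≠ 0 := by omega
    have e1 : f n = ∏ p ∈ n.primeFactors, f (p ^ n.factorization p) := hf.eq_prod hn0
    have e2 : ee (Θ n) = ∏ p ∈ n.primeFactors, ee (θ p) := by
      rw [primeFactors_eq hn.1 hn.2, ← ee_sum, hΘ]
      simp only [sum_filter]
    have e3 : mix f g y n = ∏ p ∈ n.primeFactors,
        (if p ≤ y then f (p ^ n.factorization p) else g (p ^ n.factorization p)) := rfl
    rw [e1, e2, e3, ← prod_mul_distrib]
    refine (norm_prod_sub _ _ _ (fun p _ => hf.bd _) ?_).trans ?_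
    · intro p _
      rw [norm_mul, norm_ee, one_mul]
      split_ifs
      · exact hf.bd _
      · exact hg.bd _
    · rw [← sum_filter, ← primeFactors_eq hn.1 hn.2]
      apply sum_le_sum
      intro p hp
      have hpp := Nat.prime_of_mem_primeFactors hp
      have hdvd := Nat.dvd_of_mem_primeFactors hp
      by_cases hyp : y < p
      · rw [if_pos hyp, if_neg (not_le.2 hyp)]
        have hfac : 1 ≤ n.factorization p := by
          have := (hpp.dvd_iff_one_le_factorization hn0).1 hdvd
          exact this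
        rcases Nat.lt_or_ge (n.factorization p) 2 with h2 | h2
        · have h3 : n.factorization p = 1 := by omega
          rw [h3, pow_one]
          have h4 : ‖f p - ee (θ p) * g p‖ ≤ 4 * η p := by
            by_cases hgood : η p ≤ 1 / 2
            · have := (good_prime (hf.bd p) (hg.bd p) hgood).2
              simp only [hθ, hyp, hgood, and_self, if_true]
              have h5 := hη0 p
              simp only [hη] at h5 ⊢
              linarith
            · have h6 : ‖f p - ee (θ p) * g p‖ ≤ 2 := by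
                calc _ ≤ ‖f p‖ + ‖ee (θ p) * g p‖ := norm_sub_le _ _
                  _ ≤ 1 + 1 := by
                      rw [norm_mul, norm_ee, one_mul]
                      exact add_le_add (hf.bd _) (hg.bd _)
                  _ = 2 := by norm_num
              linarith [not_le.1 hgood]
          have h7 : (0 : ℝ) ≤ 2 * (if p * p ∣ n then 1 else 0) := by split_ifs <;> norm_num
          linarith
        · have h3 : p * p ∣ n := by
            rw [← sq]
            exact (hpp.pow_dvd_iff_le_factorization hn0).2 h2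
          rw [if_pos h3]
          have h6 : ‖f (p ^ n.factorization p) - ee (θ p) * g (p ^ n.factorization p)‖ ≤ 2 := by
            calc _ ≤ ‖f (p ^ n.factorization p)‖ + ‖ee (θ p) * g (p ^ n.factorization p)‖ :=
                  norm_sub_le _ _
              _ ≤ 1 + 1 := by
                  rw [norm_mul, norm_ee, one_mul]
                  exact add_le_add (hf.bd _) (hg.bd _)
              _ = 2 := by norm_num
          have := hη0 p
          linarith
      · rw [if_neg hyp, if_pos (not_lt.1 hyp)]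
        have : θ p = 0 := by
          simp only [hθ]
          rw [if_neg (fun h => hyp h.1)]
        rw [this]
        simp [ee]
  have hPN : ∀ p ∈ (PN N).filter (y < ·), y < p ∧ p.Prime := by
    intro p hp
    rw [mem_filter] at hp
    exact ⟨hp.2, (mem_filter.1 hp.1).2⟩
  have h2 : ∑ n ∈ Icc 1 N, ‖f n - ee (Θ n) * mix f g y n‖ ≤ 4 * ε' * N := by
    refine (sum_le_sum h1).trans ?_
    rw [sum_comm]
    have h3 : ∀ p ∈ PN N, ∑ n ∈ Icc 1 N, (if p ∣ n then
        (if y < p then 4 * η p + 2 * (if p * p ∣ n then 1 else 0) else 0) else 0) ≤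
        if y < p then 4 * N * (η p / p + 1 / (p : ℝ) ^ 2) else 0 := by
      intro p hp
      have hpp : p.Prime := (mem_filter.1 hp).2
      by_cases hyp : y < p
      · simp only [hyp, if_true]
        have e1 : ∑ n ∈ Icc 1 N, (if p ∣ n then 4 * η p + 2 * (if p * p ∣ n then (1:ℝ) else 0) else 0)
            = 4 * η p * ((N / p : ℕ) : ℝ) + 2 * ((N / (p * p) : ℕ) : ℝ) := by
          rw [← card_dvd N p hpp.pos, ← card_dvd N (p * p) (Nat.mul_pos hpp.pos hpp.pos), mul_sum,
            mul_sum, ← sum_add_distrib]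
          apply sum_congr rfl
          intro n _
          by_cases hd : p ∣ n
          · simp [hd]
          · have : ¬ p * p ∣ n := fun h => hd ((dvd_mul_right p p).trans h)
            simp [hd, this]
        rw [e1]
        have b1 := (floor_bounds N p hpp.pos).2
        have b2 := (floor_bounds N (p * p) (Nat.mul_pos hpp.pos hpp.pos)).2
        have hp0 : (0 : ℝ) < p := by exact_mod_cast hpp.pos
        have e2 : (N : ℝ) / ((p * p : ℕ) : ℝ) = N * (1 / (p : ℝ) ^ 2) := by
          push_cast; field_simp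
        rw [e2] at b2
        have b3 : 4 * η p * ((N / p : ℕ) : ℝ) ≤ 4 * η p * ((N : ℝ) / p) := by
          have := hη0 p
          gcongr
        have e3 : 4 * η p * ((N : ℝ) / p) = 4 * N * (η p / p) := by ring
        have b4 : 0 ≤ (N : ℝ) * (1 / (p : ℝ) ^ 2) := by positivity
        nlinarith
      · simp [hyp]
    refine (sum_le_sum h3).trans ?_
    rw [← sum_filter, ← mul_sum]
    have := htail _ hPN
    have hN : (0 : ℝ) ≤ N := Nat.cast_nonneg N
    nlinarith
  have h4 : ∑ n ∈ Icc 1 N, ‖ee (Θ n) * mix f g y n - ee A * mix f g y n‖ ≤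
      3 * N * Real.sqrt (5 * ε') := by
    calc _ ≤ ∑ n ∈ Icc 1 N, |Θ n - A| := by
          apply sum_le_sum
          intro n _
          rw [← sub_mul, norm_mul]
          calc ‖ee (Θ n) - ee A‖ * ‖mix f g y n‖ ≤ |Θ n - A| * 1 :=
                mul_le_mul (norm_ee_sub _ _) (norm_mix hf hg y n) (norm_nonneg _) (abs_nonneg _)
            _ = _ := mul_one _
      _ ≤ _ := hA
      _ ≤ _ := by
          gcongr
          calc ∑ p ∈ PN N, θ p ^ 2 / p ≤ ∑ p ∈ PN N, (if y < p then 5 * (η p / p + 1 / (p : ℝ) ^ 2) else 0) := by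
                apply sum_le_sum
                intro p _
                by_cases hyp : y < p
                · rw [if_pos hyp]
                  by_cases hgood : η p ≤ 1 / 2
                  · have h5 := (good_prime (hf.bd p) (hg.bd p) hgood).1
                    have h6 : θ p ^ 2 ≤ 5 * η p := by
                      simp only [hθ, hyp, hgood, and_self, if_true]
                      exact h5
                    have h7 : θ p ^ 2 / p ≤ 5 * η p / p := by gcongr
                    have h8 : (0 : ℝ) ≤ 1 / (p : ℝ) ^ 2 := by positivity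
                    have h9 : 5 * η p / (p : ℝ) = 5 * (η p / p) := by ring
                    linarith
                  · have : θ p = 0 := by
                      simp only [hθ]
                      rw [if_neg (fun h => hgood h.2)]
                    rw [this]
                    have := hη0 p
                    have h10 : (0:ℝ) ≤ 5 * (η p / p + 1 / (p : ℝ) ^ 2) := by positivity
                    simpa using h10
                · have : θ p = 0 := by
                    simp only [hθ]
                    rw [if_neg (fun h => hyp h.1)]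
                  rw [this, if_neg hyp]
                  simp
            _ = 5 * ∑ p ∈ (PN N).filter (y < ·), (η p / p + 1 / (p : ℝ) ^ 2) := by
                rw [← sum_filter, mul_sum]
            _ ≤ 5 * ε' := by
                have := htail _ hPN
                linarith
  have hsqrt : 3 * Real.sqrt (5 * ε') ≤ ε / 2 := by
    have h5 : 5 * ε' ≤ (ε / 6) ^ 2 := by
      have : ε' ≤ ε ^ 2 / 180 := min_le_right _ _
      nlinarith
    have h6 : Real.sqrt (5 * ε') ≤ ε / 6 := by
      rw [← Real.sqrt_sq (by positivity : 0 ≤ ε / 6)]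
      exact Real.sqrt_le_sqrt h5
    linarith
  have hε8 : ε' ≤ ε / 8 := min_le_left _ _
  calc ∑ n ∈ Icc 1 N, ‖f n - ee A * mix f g y n‖
      ≤ ∑ n ∈ Icc 1 N, (‖f n - ee (Θ n) * mix f g y n‖ +
          ‖ee (Θ n) * mix f g y n - ee A * mix f g y n‖) := by
        apply sum_le_sum
        intro n _
        have : f n - ee A * mix f g y n = (f n - ee (Θ n) * mix f g y n) +
          (ee (Θ n) * mix f g y n - ee A * mix f g y n) := by ring
        rw [this]
        exact norm_add_le _ _
    _ = _ := sum_add_distrib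
    _ ≤ 4 * ε' * N + 3 * N * Real.sqrt (5 * ε') := add_le_add h2 h4
    _ ≤ ε * N := by
        have hN : (0 : ℝ) ≤ N := Nat.cast_nonneg N
        have h7 : 4 * ε' * N ≤ (ε / 2) * N := by
          apply mul_le_mul_of_nonneg_right _ hN
          linarith
        have h8 : 3 * N * Real.sqrt (5 * ε') ≤ (ε / 2) * N := by
          calc _ = (3 * Real.sqrt (5 * ε')) * N := by ring
            _ ≤ _ := mul_le_mul_of_nonneg_right hsqrt hN
        linarith

theorem orthDet_of_close {f g : ℕ → ℂ} (hf : BM f) (hg : BM g)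
    (hs : Summable fun p : ℕ => if p.Prime then (1 - (f p * conj (g p)).re) / p else 0)
    (h : OrthDet g) : OrthDet f := by
  intro z hz
  obtain ⟨B, hB, hzB⟩ := hz.bounded
  rw [tendsto_mean_iff]
  intro ε hε
  obtain ⟨y, hy⟩ := approx hf hg hs (ε / (2 * B)) (by positivity)
  have h1 := (tendsto_mean_iff _).1 (orthDet_mix hf hg h y z hz) (ε / 2) (by positivity)
  filter_upwards [h1] with N hN
  obtain ⟨c, hc, hcN⟩ := hy N
  have e1 : ∑ n ∈ Icc 1 N, f n * z n = ∑ n ∈ Icc 1 N, (f n - c * mix f g y n) * z n +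
      c * ∑ n ∈ Icc 1 N, mix f g y n * z n := by
    rw [mul_sum, ← sum_add_distrib]
    apply sum_congr rfl
    intro n _; ring
  rw [e1]
  calc _ ≤ ‖∑ n ∈ Icc 1 N, (f n - c * mix f g y n) * z n‖ +
        ‖c * ∑ n ∈ Icc 1 N, mix f g y n * z n‖ := norm_add_le _ _
    _ ≤ (ε / (2 * B) * N) * B + 1 * (ε / 2 * N) := by
        apply add_le_add
        · calc _ ≤ ∑ n ∈ Icc 1 N, ‖(f n - c * mix f g y n) * z n‖ := norm_sum_le _ _
            _ ≤ ∑ n ∈ Icc 1 N, ‖f n - c * mix f g y n‖ * B := by
                apply sum_le_sum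
                intro n _
                rw [norm_mul]
                exact mul_le_mul_of_nonneg_left (hzB n) (norm_nonneg _)
            _ = (∑ n ∈ Icc 1 N, ‖f n - c * mix f g y n‖) * B := by rw [sum_mul]
            _ ≤ _ := mul_le_mul_of_nonneg_right hcN hB.le
        · rw [norm_mul, hc]
          exact mul_le_mul_of_nonneg_left hN (by norm_num)
    _ = ε * N := by field_simp; ring

end Sarnak8c
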