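import Pool.Agent.Sarnak.Defs

open Filter Topology Set Uniformity Dynamics ComplexConjugate

namespace Sarnak8c

/-- sequences read off systems of zero entropy -/
def Det (z : ℕ → ℂ) : Prop :=
  ∃ (X : Type) (_ : MetricSpace X) (_ : CompactSpace X) (T : X → X) (Φ : C(X, ℂ)) (x : X),
    Continuous T ∧ coverEntropy T univ = 0 ∧ ∀ n, Φ (T^[n] x) = z n

/-- orthogonality to all such sequences -/
def OrthDet (f : ℕ → ℂ) : Prop :=
  ∀ z : ℕ → ℂ, Det z →
    Tendsto (fun N : ℕ => (1 / (N : ℂ)) * ∑ n ∈ Finset.Icc 1 N, f n * z n) atTop (𝓝 0)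

lemma propertyS_iff (χ : ℤ → ℂ) : PropertyS χ ↔ OrthDet (fun n : ℕ => χ n) := by
  constructor
  · rintro h z ⟨X, _, _, T, Φ, x, hT, he, hz⟩
    have := h X T hT he Φ x
    simpa only [hz] using this
  · intro h X _ _ T hT he Φ x
    exact h _ ⟨X, _, inferInstance, T, Φ, x, hT, he, fun n => rfl⟩

lemma Det.bounded {z : ℕ → ℂ} (h : Det z) : ∃ B : ℝ, 0 < B ∧ ∀ n, ‖z n‖ ≤ B := by
  obtain ⟨X, _, _, T, Φ, x, hT, he, hz⟩ := h
  refine ⟨‖Φ‖ + 1, by positivity, fun n => ?_⟩
  rw [← hz]
  have := Φ.norm_coe_le_norm (T^[n] x)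
  linarith

lemma iterate_entropy {X : Type} [MetricSpace X] [Nonempty X] {T : X → X}
    (h : coverEntropy T univ = 0) (m : ℕ) (hm : 1 ≤ m) : coverEntropy (T^[m]) univ = 0 := by
  apply le_antisymm _ (coverEntropy_nonneg _ univ_nonempty)
  refine iSup₂_le fun U hU => ?_
  have h1 : coverEntropyEntourage T univ U ≤ 0 := h ▸ coverEntropyEntourage_le_coverEntropy T univ hU
  have h2 : ∀ n, coverMincard (T^[m]) univ U n ≤ coverMincard T univ U (m * n) := by
    intro n
    refine le_iInf₂ fun s hs => ?_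
    apply IsDynCoverOf.coverMincard_le_card
    intro x hx
    obtain ⟨y, hy, hxy⟩ := hs hx
    refine ⟨y, hy, ?_⟩
    rw [mem_dynEntourage] at hxy ⊢
    intro k hk
    have := hxy (m * k) (by
      exact Nat.mul_lt_mul_of_pos_left hk (by omega))
    rwa [Function.iterate_mul] at this
  have hmono : Monotone fun n : ℕ => ((coverMincard T univ U n : ℕ∞) : ENNReal) := by
    intro a b hab
    exact ENat.toENNReal_mono (coverMincard_monotone_time T univ U hab)
  have h3 := hmono.expGrowthSup_comp_mul (m := m) (by omega)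
  calc coverEntropyEntourage (T^[m]) univ U
      ≤ ExpGrowth.expGrowthSup (fun n : ℕ => ((coverMincard T univ U (m * n) : ℕ∞) : ENNReal)) := by
        apply ExpGrowth.expGrowthSup_monotone
        intro n
        exact ENat.toENNReal_mono (h2 n)
    _ = m * ExpGrowth.expGrowthSup (fun n : ℕ => ((coverMincard T univ U n : ℕ∞) : ENNReal)) := h3
    _ ≤ m * 0 := by
        apply mul_le_mul_of_nonneg_left h1
        exact_mod_cast Nat.zero_le m
    _ = 0 := mul_zero _

lemma Det.comp_mul {z : ℕ → ℂ} (h : Det z) (m : ℕ) (hm : 1 ≤ m) : Det (fun n => z (m * n)) := by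
  obtain ⟨X, _, _, T, Φ, x, hT, he, hz⟩ := h
  have : Nonempty X := ⟨x⟩
  refine ⟨X, inferInstance, inferInstance, T^[m], Φ, x, hT.iterate m, iterate_entropy he m hm, ?_⟩
  intro n
  rw [← Function.iterate_mul, hz]

lemma Det.mul_periodic {z : ℕ → ℂ} (h : Det z) {w : ℕ → ℂ} (q : ℕ) (hq : 0 < q)
    (hw : ∀ n, w (n + q) = w n) : Det (fun n => z n * w n) := by
  obtain ⟨X, _, _, T, Φ, x, hT, he, hz⟩ := h
  have : Nonempty X := ⟨x⟩
  let F := {n : ℕ // n < q}
  have : Finite F := (Set.finite_lt_nat q).to_subtype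
  have : CompactSpace F := Finite.compactSpace
  have : Nonempty F := ⟨⟨0, hq⟩⟩
  let R : F → F := fun a => ⟨(a.1 + 1) % q, Nat.mod_lt _ hq⟩
  have hR : ∀ n, ((R^[n] ⟨0, hq⟩ : F) : ℕ) = n % q := by
    intro n
    induction n with
    | zero => simp
    | succ n ih =>
      rw [Function.iterate_succ_apply']
      change ((R^[n] ⟨0, hq⟩ : F).1 + 1) % q = (n + 1) % q
      rw [ih, Nat.mod_add_mod]
  let S : X × F → X × F := Prod.map T R
  let W : C(F, ℂ) := ⟨fun a => w a.1, continuous_of_discreteTopology⟩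
  let Ψ : C(X × F, ℂ) := ⟨fun p => Φ p.1 * W p.2, by fun_prop⟩
  have hSn : ∀ n (p : X × F), S^[n] p = (T^[n] p.1, R^[n] p.2) := by
    intro n
    induction n with
    | zero => intro p; rfl
    | succ n ih =>
      intro p
      rw [Function.iterate_succ_apply', ih]
      simp only [S, Prod.map, Function.iterate_succ_apply']
  refine ⟨X × F, inferInstance, inferInstance, S, Ψ, (x, ⟨0, hq⟩), ?_, ?_, ?_⟩
  · exact hT.prodMap continuous_of_discreteTopology
  · apply le_antisymm _ (coverEntropy_nonneg _ univ_nonempty)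
    refine iSup₂_le fun V hV => ?_
    rw [uniformity_prod] at hV
    obtain ⟨U, hU, U', hU', hUV⟩ : ∃ U ∈ 𝓤 X, ∃ U' ∈ 𝓤 F,
        {p : (X × F) × (X × F) | (p.1.1, p.2.1) ∈ U ∧ (p.1.2, p.2.2) ∈ U'} ⊆ V := by
      obtain ⟨A, hA, B, hB, hAB⟩ := Filter.mem_inf_iff_superset.1 hV
      obtain ⟨U, hU, hUA⟩ := Filter.mem_comap.1 hA
      obtain ⟨U', hU', hUB⟩ := Filter.mem_comap.1 hB
      exact ⟨U, hU, U', hU', fun p hp => hAB ⟨hUA hp.1, hUB hp.2⟩⟩
    have h1 : coverEntropyEntourage T univ U ≤ 0 :=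
      he ▸ coverEntropyEntourage_le_coverEntropy T univ hU
    refine le_trans ?_ h1
    have : Fintype F := Fintype.ofFinite F
    apply ExpGrowth.expGrowthSup_le_of_eventually_le (b := (Fintype.card F : ENNReal))
      (ENNReal.natCast_ne_top _)
    refine Filter.Eventually.of_forall fun n => ?_
    have h2 : coverMincard S univ V n ≤ (Fintype.card F : ℕ∞) * coverMincard T univ U n := by
      rcases eq_top_or_lt_top (coverMincard T univ U n) with ht | ht
      · rw [ht, ENat.mul_top]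
        · exact le_top
        · have : 0 < Fintype.card F := Fintype.card_pos_iff.2 ⟨⟨0, hq⟩⟩
          exact_mod_cast this.ne'
      · obtain ⟨s, hs, hcard⟩ := (coverMincard_finite_iff T univ U n).1 ht
        rw [← hcard]
        have h3 : IsDynCoverOf S univ V n ((s ×ˢ (Finset.univ : Finset F) : Finset (X × F)) : Set (X × F)) := by
          rintro ⟨y, a⟩ _
          obtain ⟨y', hy', hyy⟩ := hs (mem_univ y)
          refine ⟨(y', a), by simpa using hy', ?_⟩
          rw [mem_dynEntourage] at hyy ⊢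
          intro k hk
          apply hUV
          rw [hSn, hSn]
          exact ⟨hyy k hk, refl_mem_uniformity hU'⟩
        refine h3.coverMincard_le_card.trans ?_
        rw [Finset.card_product, Finset.card_univ, mul_comm]
        exact_mod_cast le_refl _
    have h4 := ENat.toENNReal_mono h2
    simpa using h4
  · intro n
    have h1 : W (R^[n] ⟨0, hq⟩) = w n := by
      change w ((R^[n] ⟨0, hq⟩ : F) : ℕ) = w n
      rw [hR]
      have h2 : Function.Periodic w q := hw
      exact h2.map_mod_nat n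
    change Φ (S^[n] (x, ⟨0, hq⟩)).1 * W (S^[n] (x, ⟨0, hq⟩)).2 = z n * w n
    rw [hSn]
    simp only [hz, h1]

end Sarnak8c
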