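import Pool.Agent.Sarnak.Defs

open Filter Topology Set Uniformity Dynamics

namespace Sarnak8c

def PolyCode (c : ℕ → ℕ → ℕ) : Prop := ∃ K : ℕ, ∀ L, 1 ≤ L → ∀ j, c L j < K * L ^ K

def PolyComplex (a : ℕ → ℂ) : Prop :=
  ∀ ε : ℝ, 0 < ε → ∃ c : ℕ → ℕ → ℕ, PolyCode c ∧
    ∀ L, 1 ≤ L → ∀ j j', c L j = c L j' → ∀ i < L, ‖a (j + i) - a (j' + i)‖ ≤ ε

lemma expGrowth_poly (K : ℕ) :
    ExpGrowth.expGrowthSup (fun n : ℕ => ((K * n ^ K : ℕ) : ENNReal)) ≤ 0 := by
  rw [ExpGrowth.expGrowthSup_le_iff]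
  intro b hb
  obtain ⟨δ, hδ0, hδb⟩ := EReal.lt_iff_exists_real_btwn.1 hb
  have hδ : 0 < δ := by exact_mod_cast hδ0
  have h1 : Tendsto (fun n : ℕ => (K : ℝ) * (n : ℝ) ^ K / Real.exp (δ * n)) atTop (𝓝 0) := by
    have h2 := (isLittleO_pow_exp_pos_mul_atTop K hδ).tendsto_div_nhds_zero
    have h3 := (h2.comp tendsto_natCast_atTop_atTop).const_mul (K : ℝ)
    simp only [mul_zero] at h3
    refine h3.congr fun n => ?_
    simp [mul_div_assoc]
  have h4 : ∀ᶠ n : ℕ in atTop, (K : ℝ) * (n : ℝ) ^ K ≤ Real.exp (δ * n) := by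
    filter_upwards [h1.eventually (gt_mem_nhds one_pos)] with n hn
    have := (div_lt_one (Real.exp_pos _)).1 hn
    exact this.le
  filter_upwards [h4] with n hn
  calc ((K * n ^ K : ℕ) : ENNReal) = ENNReal.ofReal ((K : ℝ) * (n : ℝ) ^ K) := by
        rw [← ENNReal.ofReal_natCast]; push_cast; rfl
    _ ≤ ENNReal.ofReal (Real.exp (δ * n)) := ENNReal.ofReal_le_ofReal hn
    _ = EReal.exp ((δ * n : ℝ) : EReal) := by rw [EReal.exp_coe]
    _ ≤ EReal.exp (b * n) := by
        apply EReal.exp_monotone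
        push_cast
        exact mul_le_mul_of_nonneg_right hδb.le (by positivity)

lemma PolyGrowth.entropy {X : Type} [MetricSpace X] [Nonempty X] {T : X → X}
    (h : PolyGrowth T) : coverEntropy T univ = 0 := by
  apply le_antisymm
  · refine iSup₂_le fun U hU => ?_
    obtain ⟨K, hK⟩ := h U hU
    refine le_trans ?_ (expGrowth_poly K)
    apply ExpGrowth.expGrowthSup_eventually_monotone
    filter_upwards [eventually_ge_atTop 1] with n hn
    have := hK n hn
    calc ((coverMincard T univ U n : ℕ∞) : ENNReal) ≤ (((K * n ^ K : ℕ) : ℕ∞) : ENNReal) :=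
          ENat.toENNReal_mono this
      _ = _ := by simp
  · exact coverEntropy_nonneg T univ_nonempty

lemma propertySPoly_of_propertyS {χ : ℤ → ℂ} (h : PropertyS χ) : PropertySPoly χ := by
  intro X _ _ T hT hg Φ x
  haveI : Nonempty X := ⟨x⟩
  exact h X T hT hg.entropy Φ x

abbrev Y : Type := ℕ → Metric.closedBall (0:ℂ) 1

def shift (y : Y) : Y := fun n => y (n+1)

lemma shift_cont : Continuous shift := by
  unfold shift
  fun_prop

lemma shift_iter (j : ℕ) (y : Y) (i : ℕ) : (shift^[j] y) i = y (j + i) := by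
  induction j generalizing y with
  | zero => simp
  | succ j ih => 
    rw [Function.iterate_succ_apply, ih]
    unfold shift
    congr 1; omega

lemma entourage_Y (U : Set (Y × Y)) (hU : U ∈ 𝓤 Y) :
    ∃ m : ℕ, ∃ ε : ℝ, 0 < ε ∧ ∀ x y : Y, (∀ i < m, dist (x i) (y i) ≤ ε) → (x, y) ∈ U := by
  rw [Pi.uniformity, Filter.mem_iInf] at hU
  obtain ⟨I, hI, V, hV, rfl⟩ := hU
  have h1 : ∀ i : I, ∃ ε : ℝ, 0 < ε ∧ ∀ x y : Y, dist (x i) (y i) < ε → (x, y) ∈ V i := by
    intro i
    obtain ⟨W, hW, hWV⟩ := Filter.mem_comap.1 (hV i)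
    obtain ⟨ε, hε, hεW⟩ := Metric.mem_uniformity_dist.1 hW
    exact ⟨ε, hε, fun x y hxy => hWV (hεW hxy)⟩
  choose e he heV using h1
  haveI := hI.fintype
  obtain ⟨m, hm⟩ := hI.bddAbove
  by_cases hne : Nonempty I
  · obtain ⟨i0, hi0⟩ := Finite.exists_min e
    refine ⟨m + 1, e i0 / 2, by have := he i0; positivity, fun x y hxy => ?_⟩
    rw [mem_iInter]
    intro i
    apply heV i
    have := hxy i (Nat.lt_succ_of_le (hm i.2))
    have h3 := hi0 i
    have := he i0
    linarith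
  · refine ⟨0, 1, one_pos, fun x y _ => ?_⟩
    rw [mem_iInter]
    intro i
    exact (hne ⟨i⟩).elim

lemma orbit_cover {a : ℕ → ℂ} (ha : ∀ n, ‖a n‖ ≤ 1) (hc : PolyComplex a) (x0 : Y)
    (hx0 : ∀ n, (x0 n : ℂ) = a n) (U : Set (Y × Y)) (hU : U ∈ 𝓤 Y) :
    ∃ K : ℕ, ∀ n : ℕ, 1 ≤ n →
      coverMincard shift (range fun j : ℕ => shift^[j] x0) U n ≤ ((K * n ^ K : ℕ) : ℕ∞) := by
  obtain ⟨m, ε, hε, hUε⟩ := entourage_Y U hU
  obtain ⟨c, ⟨K, hK⟩, hcc⟩ := hc ε hε
  refine ⟨K * (m + 1) ^ K + K, fun n hn => ?_⟩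
  -- representatives
  have hrep : ∀ v : ℕ, ∃ r : ℕ, (∃ j, c (n + m) j = v) → c (n + m) r = v := by
    intro v
    by_cases h : ∃ j, c (n + m) j = v
    · obtain ⟨j, hj⟩ := h
      exact ⟨j, fun _ => hj⟩
    · exact ⟨0, fun h' => (h h').elim⟩
  choose r hr using hrep
  classical
  let s : Finset Y := (Finset.range (K * (n + m) ^ K)).image fun v => shift^[r v] x0
  have hs : IsDynCoverOf shift (range fun j : ℕ => shift^[j] x0) U n s := by
    rintro x ⟨j, rfl⟩
    have hL : 1 ≤ n + m := by omega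
    refine ⟨shift^[r (c (n + m) j)] x0, ?_, ?_⟩
    · simp only [s, Finset.coe_image, Finset.coe_range]
      exact ⟨c (n + m) j, hK _ hL j, rfl⟩
    · rw [mem_dynEntourage]
      intro k hk
      apply hUε
      intro i hi
      have h1 : c (n + m) j = c (n + m) (r (c (n + m) j)) := (hr _ ⟨j, rfl⟩).symm
      have h2 := hcc (n + m) hL j (r (c (n + m) j)) h1 (k + i) (by omega)
      rw [← Function.iterate_add_apply, ← Function.iterate_add_apply, shift_iter, shift_iter,
        Subtype.dist_eq, hx0, hx0, dist_eq_norm]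
      convert h2 using 3 <;> congr 1 <;> omega
  refine hs.coverMincard_le_card.trans ?_
  have hcard : s.card ≤ K * (n + m) ^ K := by
    refine Finset.card_image_le.trans ?_
    simp
  have h3 : K * (n + m) ^ K ≤ (K * (m + 1) ^ K + K) * n ^ (K * (m + 1) ^ K + K) := by
    have h4 : n + m ≤ (m + 1) * n := by nlinarith
    calc K * (n + m) ^ K ≤ K * ((m + 1) * n) ^ K := by gcongr
      _ = (K * (m + 1) ^ K) * n ^ K := by rw [mul_pow]; ring
      _ ≤ (K * (m + 1) ^ K + K) * n ^ (K * (m + 1) ^ K + K) := by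
          apply Nat.mul_le_mul
          · omega
          · exact Nat.pow_le_pow_right hn (by omega)
  exact_mod_cast hcard.trans h3

lemma PolyComplex.system {a : ℕ → ℂ} (ha : ∀ n, ‖a n‖ ≤ 1) (hc : PolyComplex a) :
    ∃ (X : Type) (_ : MetricSpace X) (_ : CompactSpace X) (T : X → X) (Φ : C(X, ℂ)) (x : X),
      Continuous T ∧ PolyGrowth T ∧ ∀ n, Φ (T^[n] x) = a n := by
  letI : MetricSpace Y := UniformSpace.metricSpace Y
  let x0 : Y := fun n => ⟨a n, by simpa using ha n⟩
  let F : Set Y := range fun j : ℕ => shift^[j] x0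
  have hmapF : MapsTo shift F F := by
    rintro x ⟨j, rfl⟩
    exact ⟨j + 1, by simp only [Function.iterate_succ_apply']⟩
  have hmap : MapsTo shift (closure F) (closure F) := hmapF.closure shift_cont
  haveI : CompactSpace (closure F) := isCompact_iff_compactSpace.1 isClosed_closure.isCompact
  let T : closure F → closure F := hmap.restrict shift _ _
  have hx0 : x0 ∈ closure F := subset_closure ⟨0, rfl⟩
  let Φ : C(closure F, ℂ) := ⟨fun y => ((y : Y) 0 : ℂ),
    continuous_subtype_val.comp ((continuous_apply 0).comp continuous_subtype_val)⟩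
  refine ⟨closure F, inferInstance, this, T, Φ, ⟨x0, hx0⟩, ?_, ?_, ?_⟩
  · exact (shift_cont.comp continuous_subtype_val).subtype_mk _
  · intro U hU
    rw [uniformity_subtype] at hU
    obtain ⟨W, hW, hWU⟩ := Filter.mem_comap.1 hU
    obtain ⟨V, hV, hVs, hVW⟩ := comp_symm_mem_uniformity_sets hW
    obtain ⟨V', hV', hV's, hV'V⟩ := comp_symm_mem_uniformity_sets hV
    obtain ⟨K, hK⟩ := orbit_cover ha hc x0 (fun _ => rfl) V' hV'
    refine ⟨K, fun n hn => ?_⟩
    have hsemi : Function.Semiconj (Subtype.val : closure F → Y) T shift := fun y => rfl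
    have h1 := le_coverMincard_image hsemi (univ : Set (closure F)) (V := V) n
    have h2 : coverMincard T univ U n ≤
        coverMincard T univ (Prod.map Subtype.val Subtype.val ⁻¹' (SetRel.comp V V)) n := by
      apply coverMincard_antitone
      refine subset_trans ?_ hWU
      exact preimage_mono hVW
    have h3 : (Subtype.val : closure F → Y) '' univ = closure F := by simp
    rw [h3] at h1
    have h4 : coverMincard shift (closure F) V n ≤
        coverMincard shift (closure F) (SetRel.comp V' V') n := 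
      coverMincard_antitone shift (closure F) n hV'V
    exact h2.trans (h1.trans (h4.trans
      ((coverMincard_closure_le shift_cont F V' hV' n).trans (hK n hn))))
  · intro n
    have h1 : ((T^[n] ⟨x0, hx0⟩ : closure F) : Y) = shift^[n] x0 := by
      have hsemi : Function.Semiconj (Subtype.val : closure F → Y) T shift := fun y => rfl
      exact (hsemi.iterate_right n) ⟨x0, hx0⟩
    change (((T^[n] ⟨x0, hx0⟩ : closure F) : Y) 0 : ℂ) = a n
    rw [h1, shift_iter]
    rfl

lemma PropertySPoly.tendsto {χ : ℤ → ℂ} (hS : PropertySPoly χ) {a : ℕ → ℂ}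
    (ha : ∀ n, ‖a n‖ ≤ 1) (hc : PolyComplex a) :
    Tendsto (fun N : ℕ => (1 / (N : ℂ)) * ∑ n ∈ Finset.Icc 1 N, χ n * a n) atTop (𝓝 0) := by
  obtain ⟨X, _, _, T, Φ, x, hT, hg, hΦ⟩ := hc.system ha
  have := hS X T hT hg Φ x
  simpa only [hΦ] using this
end Sarnak8c
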