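import Mathlib

open Filter Topology Finset

namespace Sarnak8c

/-- `n^{-(1+σ)}` -/
noncomputable def aa (σ : ℝ) (n : ℕ) : ℝ := (n : ℝ) ^ (-(1 + σ))

lemma aa_nonneg (σ : ℝ) (n : ℕ) : 0 ≤ aa σ n := Real.rpow_nonneg (Nat.cast_nonneg n) _

lemma aa_one (σ : ℝ) : aa σ 1 = 1 := by simp [aa]

lemma aa_zero {σ : ℝ} (hσ : 0 < σ) : aa σ 0 = 0 := by
  unfold aa
  rw [Nat.cast_zero, Real.zero_rpow (by linarith)]

lemma aa_mul (σ : ℝ) (m n : ℕ) : aa σ (m * n) = aa σ m * aa σ n := by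
  unfold aa
  rw [Nat.cast_mul, Real.mul_rpow (Nat.cast_nonneg m) (Nat.cast_nonneg n)]

lemma aa_pow (σ : ℝ) (p k : ℕ) : aa σ (p ^ k) = (aa σ p) ^ k := by
  induction k with
  | zero => simp [aa_one]
  | succ k ih => rw [pow_succ, aa_mul, ih, pow_succ]

lemma aa_le_inv {σ : ℝ} (hσ : 0 < σ) {n : ℕ} (hn : 1 ≤ n) : aa σ n ≤ 1 / n := by
  unfold aa
  have h1 : (1 : ℝ) ≤ n := by exact_mod_cast hn
  rw [one_div, ← Real.rpow_neg_one]
  exact Real.rpow_le_rpow_of_exponent_le h1 (by linarith)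

lemma aa_pos (σ : ℝ) {n : ℕ} (hn : 1 ≤ n) : 0 < aa σ n := by
  unfold aa
  have h1 : (0 : ℝ) < n := by exact_mod_cast hn
  positivity

lemma aa_tele {σ : ℝ} (hσ : 0 < σ) {n : ℕ} (hn : 1 ≤ n) :
    aa σ (n + 1) ≤ ((n : ℝ) ^ (-σ) - ((n + 1 : ℕ) : ℝ) ^ (-σ)) / σ := by
  have hn' : (0 : ℝ) < n := by exact_mod_cast hn
  have hn1 : (0 : ℝ) < ((n + 1 : ℕ) : ℝ) := by positivity
  set x : ℝ := ((n + 1 : ℕ) : ℝ) with hx
  have hxn : x = n + 1 := by rw [hx]; push_cast; ring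
  have e1 : aa σ (n + 1) = x ^ (-σ) * (1 / x) := by
    unfold aa
    rw [← hx, one_div, ← Real.rpow_neg_one, ← Real.rpow_add hn1]
    congr 1; ring
  have e2 : (n : ℝ) ^ (-σ) = x ^ (-σ) * ((n : ℝ) / x) ^ (-σ) := by
    rw [← Real.mul_rpow hn1.le (by positivity)]
    congr 1; field_simp
  have e3 : 1 + σ / x ≤ ((n : ℝ) / x) ^ (-σ) := by
    rw [Real.rpow_def_of_pos (by positivity)]
    have h1 := Real.add_one_le_exp (Real.log ((n : ℝ) / x) * -σ)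
    have h2 := Real.log_le_sub_one_of_pos (show 0 < (n : ℝ) / x by positivity)
    have h3 : (n : ℝ) / x - 1 = -(1 / x) := by
      rw [hxn]; field_simp; ring
    rw [h3] at h2
    have h4 : σ / x ≤ Real.log ((n : ℝ) / x) * -σ := by
      have : σ * (1 / x) ≤ σ * (-Real.log ((n : ℝ) / x)) := by
        apply mul_le_mul_of_nonneg_left _ hσ.le
        linarith
      calc σ / x = σ * (1 / x) := by ring
        _ ≤ _ := this
        _ = _ := by ring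
    linarith
  rw [le_div_iff₀ hσ, e1, e2]
  have h5 : 0 < x ^ (-σ) := by positivity
  nlinarith [mul_le_mul_of_nonneg_left e3 h5.le, show x ^ (-σ) * (σ / x) = x ^ (-σ) * (1 / x) * σ by ring]

lemma aa_diff {σ : ℝ} (hσ : 0 < σ) {n : ℕ} (hn : 1 ≤ n) :
    (n : ℝ) * (aa σ n - aa σ (n + 1)) ≤ (1 + σ) * aa σ n := by
  have hn' : (0 : ℝ) < n := by exact_mod_cast hn
  have e1 : aa σ (n + 1) = aa σ n * (((n + 1 : ℕ) : ℝ) / n) ^ (-(1 + σ)) := by
    unfold aa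
    rw [← Real.mul_rpow hn'.le (by positivity)]
    congr 1; field_simp
  have e2 : 1 - (1 + σ) / n ≤ (((n + 1 : ℕ) : ℝ) / n) ^ (-(1 + σ)) := by
    rw [Real.rpow_def_of_pos (by positivity)]
    have h1 := Real.add_one_le_exp (Real.log (((n + 1 : ℕ) : ℝ) / n) * -(1 + σ))
    have h2 := Real.log_le_sub_one_of_pos (show 0 < ((n + 1 : ℕ) : ℝ) / n by positivity)
    have h3 : ((n + 1 : ℕ) : ℝ) / n - 1 = 1 / n := by
      push_cast; field_simp; ring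
    rw [h3] at h2
    have h4 : (1 + σ) * Real.log (((n + 1 : ℕ) : ℝ) / n) ≤ (1 + σ) * (1 / n) :=
      mul_le_mul_of_nonneg_left h2 (by linarith)
    have h5 : (1 + σ) / n = (1 + σ) * (1 / n) := by ring
    rw [h5]; linarith
  rw [e1]
  have h6 := aa_nonneg σ n
  have h7 : aa σ n * (1 - (1 + σ) / n) ≤ aa σ n * (((n + 1 : ℕ) : ℝ) / n) ^ (-(1 + σ)) :=
    mul_le_mul_of_nonneg_left e2 h6
  have h8 : (n : ℝ) * (aa σ n * (1 - (1 + σ) / n)) = n * aa σ n - (1 + σ) * aa σ n := by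
    field_simp
  nlinarith

lemma aa_anti {σ : ℝ} (hσ : 0 < σ) {n : ℕ} (hn : 1 ≤ n) : aa σ (n + 1) ≤ aa σ n := by
  unfold aa
  have hn' : (0 : ℝ) < n := by exact_mod_cast hn
  apply Real.rpow_le_rpow_of_nonpos hn' _ (by linarith)
  push_cast; linarith

/-- partial sums -/
lemma sum_aa_le {σ : ℝ} (hσ : 0 < σ) (N : ℕ) (hN : 1 ≤ N) (m : ℕ) :
    ∑ i ∈ range m, aa σ (i + (N + 1)) ≤ ((N : ℝ) ^ (-σ) - ((N + m : ℕ) : ℝ) ^ (-σ)) / σ := by
  induction m with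
  | zero => simp
  | succ m ih =>
    rw [sum_range_succ]
    have h1 := aa_tele hσ (n := N + m) (by omega)
    have h2 : m + (N + 1) = N + m + 1 := by ring
    rw [h2]
    have h3 : N + (m + 1) = N + m + 1 := by ring
    rw [h3]
    calc _ ≤ ((N : ℝ) ^ (-σ) - ((N + m : ℕ) : ℝ) ^ (-σ)) / σ +
        (((N + m : ℕ) : ℝ) ^ (-σ) - ((N + m + 1 : ℕ) : ℝ) ^ (-σ)) / σ := add_le_add ih h1
      _ = _ := by ring

lemma summable_aa {σ : ℝ} (hσ : 0 < σ) : Summable (aa σ) := by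
  unfold aa
  exact Real.summable_nat_rpow.2 (by linarith)

lemma tail_aa_le {σ : ℝ} (hσ : 0 < σ) (N : ℕ) (hN : 1 ≤ N) :
    ∑' i : ℕ, aa σ (i + (N + 1)) ≤ (N : ℝ) ^ (-σ) / σ := by
  apply Real.tsum_le_of_sum_range_le (fun i => aa_nonneg _ _)
  intro m
  refine (sum_aa_le hσ N hN m).trans ?_
  have : (0:ℝ) ≤ ((N + m : ℕ) : ℝ) ^ (-σ) := by positivity
  gcongr
  linarith

lemma sum_aa_le' {σ : ℝ} (hσ : 0 < σ) (N : ℕ) :
    ∑ i ∈ range N, aa σ i ≤ 1 + 1 / σ := by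
  rcases Nat.lt_or_ge N 2 with h | h
  · have : ∑ i ∈ range N, aa σ i ≤ 1 := by
      interval_cases N
      · simp
      · simp [aa_zero hσ]
    have h2 : 0 ≤ 1 / σ := by positivity
    linarith
  · obtain ⟨m, rfl⟩ := Nat.exists_eq_add_of_le' h
    rw [sum_range_succ', sum_range_succ', aa_zero hσ]
    have h1 := sum_aa_le hσ 1 le_rfl m
    simp only [Nat.cast_one, Real.one_rpow] at h1
    have h2 : (0:ℝ) ≤ ((1 + m : ℕ) : ℝ) ^ (-σ) := by positivity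
    have h3 : (1 - ((1 + m : ℕ) : ℝ) ^ (-σ)) / σ ≤ 1 / σ := by gcongr; linarith
    have h4 : aa σ (0 + 1) = 1 := by rw [zero_add, aa_one]
    rw [h4]
    have h5 : ∑ i ∈ range m, aa σ (i + 1 + 1) = ∑ i ∈ range m, aa σ (i + (1 + 1)) := rfl
    linarith

end Sarnak8c
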