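import Pool.Agent.Sarnak.MeanValue2

open Filter Topology Finset

namespace Sarnak8c

lemma sum_inv_Icc_le (m : ℕ) : ∑ i ∈ Icc 1 m, 1 / (i : ℝ) ≤ 1 + Real.log m := by
  have h := harmonic_le_one_add_log m
  rw [harmonic_eq_sum_Icc] at h
  push_cast at h
  simpa [one_div] using h

lemma log_le_sum_inv (m : ℕ) : Real.log (m + 1) ≤ ∑ i ∈ Icc 1 m, 1 / (i : ℝ) := by
  have h := log_add_one_le_harmonic m
  rw [harmonic_eq_sum_Icc] at h
  push_cast at h
  simpa [one_div] using h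

lemma sum_aa_ge {σ : ℝ} (hσ : 0 < σ) (N : ℕ) (hN : Real.exp (1 / σ) ≤ N) :
    Real.exp (-1) / σ ≤ ∑ n ∈ range (N + 1), aa σ n := by
  set m := ⌊Real.exp (1 / σ)⌋₊ with hm
  have hmN : m ≤ N := Nat.floor_le_of_le hN
  have hmle : (m : ℝ) ≤ Real.exp (1 / σ) := Nat.floor_le (Real.exp_pos _).le
  have hsub : Icc 1 m ⊆ range (N + 1) := by
    intro i hi
    simp only [mem_Icc, mem_range] at hi ⊢
    omega
  have h1 : ∀ i ∈ Icc 1 m, Real.exp (-1) * (1 / (i : ℝ)) ≤ aa σ i := by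
    intro i hi
    simp only [mem_Icc] at hi
    have hi0 : (0 : ℝ) < i := by exact_mod_cast hi.1
    have e1 : aa σ i = (i : ℝ) ^ (-σ) * (1 / i) := by
      unfold aa
      rw [one_div, ← Real.rpow_neg_one (i : ℝ), ← Real.rpow_add hi0]
      congr 1; ring
    rw [e1]
    have h2 : Real.exp (-1) ≤ (i : ℝ) ^ (-σ) := by
      rw [Real.rpow_def_of_pos hi0]
      apply Real.exp_le_exp.2
      have h3 : Real.log i ≤ 1 / σ := by
        rw [Real.log_le_iff_le_exp hi0]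
        exact le_trans (by exact_mod_cast hi.2) hmle
      have h4 : Real.log i * σ ≤ 1 := by
        rw [le_div_iff₀ hσ] at h3; exact h3
      linarith
    gcongr
  have h5 : 1 / σ ≤ Real.log (m + 1) := by
    have h6 : Real.exp (1 / σ) ≤ m + 1 := (Nat.lt_floor_add_one _).le
    rw [Real.le_log_iff_exp_le (by positivity)]
    exact h6
  calc Real.exp (-1) / σ = Real.exp (-1) * (1 / σ) := by ring
    _ ≤ Real.exp (-1) * ∑ i ∈ Icc 1 m, 1 / (i : ℝ) := by
        gcongr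
        exact h5.trans (log_le_sum_inv m)
    _ = ∑ i ∈ Icc 1 m, Real.exp (-1) * (1 / (i : ℝ)) := by rw [mul_sum]
    _ ≤ ∑ i ∈ Icc 1 m, aa σ i := sum_le_sum h1
    _ ≤ _ := sum_le_sum_of_subset_of_nonneg hsub fun _ _ _ => aa_nonneg _ _

lemma smooth_upper {f : ℕ → ℂ} (hf : BM f) {σ : ℝ} (hσ : 0 < σ) (N : ℕ) (hN : 1 ≤ N) :
    ‖∑' m : (N + 1).smoothNumbers, f m * (aa σ m : ℂ)‖ ≤
      ‖∑ n ∈ range (N + 1), f n * (aa σ n : ℂ)‖ + (N : ℝ) ^ (-σ) / σ := by
  set h : ℕ → ℂ := fun n => f n * (aa σ n : ℂ) with hh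
  have hnorm : ∀ n, ‖h n‖ ≤ aa σ n := by
    intro n
    rw [hh]
    simp only [norm_mul, Complex.norm_real, Real.norm_of_nonneg (aa_nonneg σ n)]
    calc ‖f n‖ * aa σ n ≤ 1 * aa σ n := by
          apply mul_le_mul_of_nonneg_right (hf.bd _) (aa_nonneg _ _)
      _ = _ := one_mul _
  have hind : ∀ n, ‖Set.indicator (N + 1).smoothNumbers h n‖ ≤ aa σ n := by
    intro n
    refine (norm_indicator_le_norm_self _ _).trans (hnorm n)
  have hsum : Summable (Set.indicator (N + 1).smoothNumbers h) :=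
    Summable.of_norm_bounded (summable_aa hσ) hind
  have h1 : ∑' m : (N + 1).smoothNumbers, f m * (aa σ m : ℂ) =
      ∑' n, Set.indicator (N + 1).smoothNumbers h n := by
    rw [← _root_.tsum_subtype]
  rw [h1, ← hsum.sum_add_tsum_nat_add (N + 1)]
  refine (norm_add_le _ _).trans ?_
  have h2 : ∑ i ∈ range (N + 1), Set.indicator (N + 1).smoothNumbers h i =
      ∑ n ∈ range (N + 1), f n * (aa σ n : ℂ) := by
    apply sum_congr rfl
    intro n hn
    rcases Nat.eq_zero_or_pos n with h0 | h0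
    · subst h0
      have h3 : h 0 = 0 := by rw [hh]; simp [aa_zero hσ]
      rw [Set.indicator_apply]
      split_ifs <;> simp [aa_zero hσ, h3]
    · rw [Set.indicator_of_mem]
      exact Nat.mem_smoothNumbers_of_lt h0 (mem_range.1 hn)
  rw [h2]
  have hs2 : Summable fun i => aa σ (i + (N + 1)) := (summable_nat_add_iff (N + 1)).2 (summable_aa hσ)
  have h4 : ‖∑' i, Set.indicator (N + 1).smoothNumbers h (i + (N + 1))‖ ≤
      ∑' i, aa σ (i + (N + 1)) :=
    tsum_of_norm_bounded hs2.hasSum fun i => hind _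
  linarith [tail_aa_le hσ N hN]

lemma BM.norm_S {f : ℕ → ℂ} (hf : BM f) (n : ℕ) : ‖∑ i ∈ Icc 1 n, f i‖ ≤ n := by
  calc ‖∑ i ∈ Icc 1 n, f i‖ ≤ ∑ i ∈ Icc 1 n, ‖f i‖ := norm_sum_le _ _
    _ ≤ ∑ i ∈ Icc 1 n, (1 : ℝ) := sum_le_sum fun i _ => hf.bd i
    _ = n := by simp

lemma abel_upper {f : ℕ → ℂ} (hf : BM f) {σ : ℝ} (hσ : 0 < σ) (hσ1 : σ ≤ 1) (N : ℕ) (hN : 1 ≤ N)
    (y ε : ℝ) (hε : 0 ≤ ε) (hy : 1 ≤ y)
    (hsmall : ∀ M : ℕ, y ≤ M → M ≤ N → ‖∑ i ∈ Icc 1 M, f i‖ ≤ ε * M) :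
    ‖∑ n ∈ range (N + 1), f n * (aa σ n : ℂ)‖ ≤
      1 + 2 * (1 + Real.log y) + 2 * ε * (1 + 1 / σ) := by
  set g : ℕ → ℂ := fun n => if n = 0 then 0 else f n with hg
  have hS : ∀ n, ∑ i ∈ range (n + 1), g i = ∑ i ∈ Icc 1 n, f i := by
    intro n
    induction n with
    | zero => simp [hg]
    | succ n ih =>
      rw [sum_range_succ, ih, sum_Icc_succ_top (by omega)]
      simp [hg]
  have h1 : ∑ n ∈ range (N + 1), f n * (aa σ n : ℂ) = ∑ n ∈ range (N + 1), aa σ n • g n := by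
    apply sum_congr rfl
    intro n _
    rw [Complex.real_smul, mul_comm, hg]
    by_cases hn : n = 0
    · simp [hn, aa_zero hσ]
    · simp [hn]
  rw [h1, sum_range_by_parts]
  simp only [hS, Nat.add_sub_cancel]
  have hbound : ∀ i ∈ range N, ‖(aa σ (i + 1) - aa σ i) • ∑ j ∈ Icc 1 i, f j‖ ≤
      2 * (if (1 ≤ i ∧ (i : ℝ) < y) then 1 / (i : ℝ) else 0) + 2 * ε * aa σ i := by
    intro i hi
    have hiN := mem_range.1 hi
    rcases Nat.eq_zero_or_pos i with h0 | h0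
    · subst h0
      simp [aa_zero hσ]
    · have hi0 : (0 : ℝ) < i := by exact_mod_cast h0
      have hd := aa_diff hσ h0
      have ha := aa_anti hσ h0
      have hinv := aa_le_inv hσ h0
      have hann := aa_nonneg σ i
      rw [norm_smul, Real.norm_eq_abs, abs_sub_comm, abs_of_nonneg (by linarith)]
      by_cases hiy : (i : ℝ) < y
      · rw [if_pos ⟨h0, hiy⟩]
        calc (aa σ i - aa σ (i + 1)) * ‖∑ j ∈ Icc 1 i, f j‖
            ≤ (aa σ i - aa σ (i + 1)) * i := by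
              apply mul_le_mul_of_nonneg_left (hf.norm_S i) (by linarith)
          _ = i * (aa σ i - aa σ (i + 1)) := mul_comm _ _
          _ ≤ (1 + σ) * aa σ i := hd
          _ ≤ 2 * (1 / i) := by
              apply mul_le_mul (by linarith) hinv hann (by norm_num)
          _ ≤ _ := by
              have : 0 ≤ 2 * ε * aa σ i := by positivity
              linarith
      · rw [if_neg (fun h => hiy h.2)]
        have h3 := hsmall i (not_lt.1 hiy) (by omega)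
        calc (aa σ i - aa σ (i + 1)) * ‖∑ j ∈ Icc 1 i, f j‖
            ≤ (aa σ i - aa σ (i + 1)) * (ε * i) := by
              apply mul_le_mul_of_nonneg_left h3 (by linarith)
          _ = ε * (i * (aa σ i - aa σ (i + 1))) := by ring
          _ ≤ ε * ((1 + σ) * aa σ i) := by gcongr
          _ ≤ ε * (2 * aa σ i) := by
              gcongr; linarith
          _ = _ := by ring
  have hN0 : (0 : ℝ) < N := by exact_mod_cast hN
  have hfirst : ‖aa σ N • ∑ j ∈ Icc 1 N, f j‖ ≤ 1 := by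
    rw [norm_smul, Real.norm_of_nonneg (aa_nonneg _ _)]
    calc aa σ N * ‖∑ j ∈ Icc 1 N, f j‖ ≤ (1 / N) * N := by
          apply mul_le_mul (aa_le_inv hσ hN) (hf.norm_S N) (norm_nonneg _) (by positivity)
      _ = 1 := by field_simp
  have hlogsum : ∑ i ∈ range N, (if (1 ≤ i ∧ (i : ℝ) < y) then 1 / (i : ℝ) else 0) ≤
      1 + Real.log y := by
    rw [← sum_filter]
    have hsub : (range N).filter (fun i : ℕ => 1 ≤ i ∧ (i : ℝ) < y) ⊆ Icc 1 ⌊y⌋₊ := by
      intro i hi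
      simp only [mem_filter, mem_range, mem_Icc] at hi ⊢
      exact ⟨hi.2.1, Nat.le_floor hi.2.2.le⟩
    refine (sum_le_sum_of_subset_of_nonneg hsub fun _ _ _ => by positivity).trans ?_
    refine (sum_inv_Icc_le _).trans ?_
    have h4 : (0 : ℝ) < (⌊y⌋₊ : ℝ) := by
      have := Nat.floor_pos.2 hy
      exact_mod_cast this
    have h5 : (⌊y⌋₊ : ℝ) ≤ y := Nat.floor_le (by linarith)
    have := Real.log_le_log h4 h5
    linarith
  calc ‖aa σ N • ∑ j ∈ Icc 1 N, f j -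
        ∑ i ∈ range N, (aa σ (i + 1) - aa σ i) • ∑ j ∈ Icc 1 i, f j‖
      ≤ ‖aa σ N • ∑ j ∈ Icc 1 N, f j‖ +
        ‖∑ i ∈ range N, (aa σ (i + 1) - aa σ i) • ∑ j ∈ Icc 1 i, f j‖ := norm_sub_le _ _
    _ ≤ 1 + ∑ i ∈ range N, (2 * (if (1 ≤ i ∧ (i : ℝ) < y) then 1 / (i : ℝ) else 0) +
          2 * ε * aa σ i) := by
        apply add_le_add hfirst
        exact (norm_sum_le _ _).trans (sum_le_sum hbound)
    _ = 1 + (2 * ∑ i ∈ range N, (if (1 ≤ i ∧ (i : ℝ) < y) then 1 / (i : ℝ) else 0) +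
          2 * ε * ∑ i ∈ range N, aa σ i) := by
        rw [sum_add_distrib, ← mul_sum, ← mul_sum]
    _ ≤ 1 + (2 * (1 + Real.log y) + 2 * ε * (1 + 1 / σ)) := by
        gcongr
        exact sum_aa_le' hσ N
    _ = _ := by ring

/-- a function at bounded distance from `1` has a large mean value at some scale -/
theorem scale (C : ℝ) : ∃ ε : ℝ, 0 < ε ∧ ∃ c : ℝ, 0 < c ∧ ∃ N₀ : ℕ, ∀ N : ℕ, N₀ ≤ N →
    ∀ f : ℕ → ℂ, BM f → (∀ k, 1 ≤ k → f (2 ^ k) = 0) → dist3 f N ≤ C →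
      ∃ M : ℕ, (N : ℝ) ^ c ≤ M ∧ M ≤ N ∧ ε * M ≤ ‖∑ i ∈ Icc 1 M, f i‖ := by
  set κ : ℝ := Real.exp (-(9 * C + 37)) * Real.exp (-1) with hκ
  have hκ0 : 0 < κ := by positivity
  set K : ℝ := 1 + |Real.log (κ / 5)| with hK
  have hK1 : 1 ≤ K := by have := abs_nonneg (Real.log (κ / 5)); linarith
  have hKe : Real.exp (-K) ≤ κ / 5 := by
    rw [← Real.le_log_iff_exp_le (by positivity)]
    have := neg_abs_le (Real.log (κ / 5))
    linarith
  refine ⟨κ / 20, by positivity, κ / (10 * K), by positivity,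
    ⌈Real.exp (K * (1 + 15 / κ))⌉₊ + 1, ?_⟩
  intro N hN f hf h2 hd
  by_contra hcon
  push Not at hcon
  have hNexp : Real.exp (K * (1 + 15 / κ)) ≤ N := by
    refine (Nat.le_ceil _).trans ?_
    exact_mod_cast (by omega : ⌈Real.exp (K * (1 + 15 / κ))⌉₊ ≤ N)
  have hN0 : (0 : ℝ) < N := lt_of_lt_of_le (Real.exp_pos _) hNexp
  have hN1 : 1 ≤ N := by omega
  have hlog : K * (1 + 15 / κ) ≤ Real.log N := by
    rw [Real.le_log_iff_exp_le hN0]; exact hNexp
  have hlog0 : 0 < Real.log N := lt_of_lt_of_le (by positivity) hlog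
  set σ : ℝ := K / Real.log N with hσdef
  have hσ0 : 0 < σ := by positivity
  have hσlog : σ * Real.log N = K := by rw [hσdef]; field_simp
  have hσ1 : σ ≤ 1 := by
    rw [hσdef, div_le_one hlog0]
    have : K * 1 ≤ K * (1 + 15 / κ) := by
      gcongr
      have : 0 ≤ 15 / κ := by positivity
      linarith
    linarith
  have hσκ : 15 * σ ≤ κ := by
    rw [hσdef, ← mul_div_assoc, div_le_iff₀ hlog0]
    calc 15 * K = κ * (K * (15 / κ)) := by field_simp
      _ ≤ κ * (K * (1 + 15 / κ)) := by gcongr; linarith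
      _ ≤ κ * Real.log N := by gcongr
  have hexpN : Real.exp (1 / σ) ≤ N := by
    rw [← Real.le_log_iff_exp_le hN0, div_le_iff₀ hσ0, mul_comm, hσlog]
    exact hK1
  have hNσ : (N : ℝ) ^ (-σ) ≤ κ / 5 := by
    rw [Real.rpow_def_of_pos hN0]
    have : Real.log N * -σ = -K := by rw [← hσlog]; ring
    rw [this]; exact hKe
  set y : ℝ := (N : ℝ) ^ (κ / (10 * K)) with hy
  have hy1 : 1 ≤ y := Real.one_le_rpow (by exact_mod_cast hN1) (by positivity)
  have hlogy : Real.log y = κ / (10 * K) * Real.log N := Real.log_rpow hN0 _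
  have hsm : ∀ M : ℕ, y ≤ M → M ≤ N → ‖∑ i ∈ Icc 1 M, f i‖ ≤ (κ / 20) * M :=
    fun M h1 h3 => (hcon M h1 h3).le
  have hup := smooth_upper hf hσ0 N hN1
  have hab := abel_upper hf hσ0 hσ1 N hN1 y (κ / 20) (by positivity) hy1 hsm
  have hlow := smooth_lower hf h2 hσ0 N hd
  have hge := sum_aa_ge hσ0 N hexpN
  have h3 : κ / σ ≤ Real.exp (-(9 * C + 37)) * ∑ n ∈ range (N + 1), aa σ n := by
    calc κ / σ = Real.exp (-(9 * C + 37)) * (Real.exp (-1) / σ) := by rw [hκ]; ring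
      _ ≤ _ := by gcongr
  have h4 : κ / σ ≤ 1 + 2 * (1 + Real.log y) + 2 * (κ / 20) * (1 + 1 / σ) +
      (N : ℝ) ^ (-σ) / σ := by linarith
  have h5 : κ ≤ (1 + 2 * (1 + Real.log y) + 2 * (κ / 20) * (1 + 1 / σ) +
      (N : ℝ) ^ (-σ) / σ) * σ := by
    rw [div_le_iff₀ hσ0] at h4; exact h4
  have h6 : (1 + 2 * (1 + Real.log y) + 2 * (κ / 20) * (1 + 1 / σ) +
      (N : ℝ) ^ (-σ) / σ) * σ = 3 * σ + 2 * (Real.log y * σ) + (κ / 10) * (σ + 1) + (N : ℝ) ^ (-σ) := by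
    field_simp; ring
  have h7 : Real.log y * σ = κ / 10 := by
    rw [hlogy]
    calc κ / (10 * K) * Real.log N * σ = κ / (10 * K) * (σ * Real.log N) := by ring
      _ = κ / (10 * K) * K := by rw [hσlog]
      _ = κ / 10 := by field_simp
  rw [h6, h7] at h5
  nlinarith

end Sarnak8c
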