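import Mathlib

open Filter Topology Finset

namespace Sarnak8c

/-- the primes up to `N` -/
def PN (N : ℕ) : Finset ℕ := (range (N + 1)).filter Nat.Prime

lemma card_dvd (N p : ℕ) (hp : 0 < p) :
    ∑ n ∈ Icc 1 N, (if p ∣ n then (1 : ℝ) else 0) = ((N / p : ℕ) : ℝ) := by
  rw [← sum_filter, sum_const, nsmul_eq_mul, mul_one]
  congr 1
  have := Nat.Ioc_filter_dvd_card_eq_div N p
  rw [← this]
  rfl

lemma floor_bounds (N p : ℕ) (hp : 0 < p) :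
    (N : ℝ) / p - 1 ≤ ((N / p : ℕ) : ℝ) ∧ ((N / p : ℕ) : ℝ) ≤ (N : ℝ) / p := by
  refine ⟨?_, Nat.cast_div_le⟩
  have hp' : (0 : ℝ) < p := by exact_mod_cast hp
  have h1 : N < p * (N / p) + p := by
    have := Nat.lt_mul_div_succ N hp
    rwa [Nat.mul_succ] at this
  have h2 : (N : ℝ) ≤ p * ((N / p : ℕ) : ℝ) + p := by exact_mod_cast h1.le
  rw [div_sub_one hp'.ne', div_le_iff₀ hp']
  linarith

/-- covariances -/
noncomputable def cov (N p q : ℕ) : ℝ :=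
  ∑ n ∈ Icc 1 N, ((if p ∣ n then (1 : ℝ) else 0) - 1 / p) * ((if q ∣ n then (1 : ℝ) else 0) - 1 / q)

lemma cov_eq (N p q : ℕ) (hp : 0 < p) (hq : 0 < q) : cov N p q =
    ∑ n ∈ Icc 1 N, (if p ∣ n ∧ q ∣ n then (1 : ℝ) else 0) - 1 / q * ((N / p : ℕ) : ℝ)
      - 1 / p * ((N / q : ℕ) : ℝ) + N * (1 / p * (1 / q)) := by
  rw [← card_dvd N p hp, ← card_dvd N q hq, mul_sum, mul_sum, ← sum_sub_distrib, ← sum_sub_distrib]
  have : (N : ℝ) * (1 / p * (1 / q)) = ∑ n ∈ Icc 1 N, (1 / (p : ℝ) * (1 / q)) := by simp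
  rw [this, ← sum_add_distrib]
  unfold cov
  apply sum_congr rfl
  intro n _
  by_cases h1 : p ∣ n <;> by_cases h2 : q ∣ n <;> simp [h1, h2] <;> ring

lemma cov_ne (N p q : ℕ) (hp : p.Prime) (hq : q.Prime) (hne : p ≠ q) : |cov N p q| ≤ 1 := by
  rw [cov_eq N p q hp.pos hq.pos]
  have hcop : p.Coprime q := (Nat.coprime_primes hp hq).2 hne
  have h1 : ∑ n ∈ Icc 1 N, (if p ∣ n ∧ q ∣ n then (1 : ℝ) else 0) = ((N / (p * q) : ℕ) : ℝ) := by
    rw [← card_dvd N (p * q) (Nat.mul_pos hp.pos hq.pos)]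
    apply sum_congr rfl
    intro n _
    have : (p ∣ n ∧ q ∣ n) ↔ p * q ∣ n :=
      ⟨fun h => hcop.mul_dvd_of_dvd_of_dvd h.1 h.2, fun h => ⟨(dvd_mul_right p q).trans h, (dvd_mul_left q p).trans h⟩⟩
    simp only [this]
  rw [h1]
  obtain ⟨a1, a2⟩ := floor_bounds N (p * q) (Nat.mul_pos hp.pos hq.pos)
  obtain ⟨b1, b2⟩ := floor_bounds N p hp.pos
  obtain ⟨c1, c2⟩ := floor_bounds N q hq.pos
  have hp2 : (2 : ℝ) ≤ p := by exact_mod_cast hp.two_le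
  have hq2 : (2 : ℝ) ≤ q := by exact_mod_cast hq.two_le
  have hp0 : (0 : ℝ) < p := by linarith
  have hq0 : (0 : ℝ) < q := by linarith
  have ip : 1 / (p : ℝ) ≤ 1 / 2 := one_div_le_one_div_of_le (by norm_num) hp2
  have iq : 1 / (q : ℝ) ≤ 1 / 2 := one_div_le_one_div_of_le (by norm_num) hq2
  have ip0 : 0 < 1 / (p : ℝ) := by positivity
  have iq0 : 0 < 1 / (q : ℝ) := by positivity
  set a : ℝ := ((N / (p * q) : ℕ) : ℝ)
  set b : ℝ := ((N / p : ℕ) : ℝ)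
  set c : ℝ := ((N / q : ℕ) : ℝ)
  have e1 : (N : ℝ) / ((p * q : ℕ) : ℝ) = N * (1 / p * (1 / q)) := by
    push_cast; field_simp
  rw [e1] at a1 a2
  have e2 : 1 / (q : ℝ) * ((N : ℝ) / p) = N * (1 / p * (1 / q)) := by field_simp
  have e3 : 1 / (p : ℝ) * ((N : ℝ) / q) = N * (1 / p * (1 / q)) := by field_simp
  have b3 : 1 / (q : ℝ) * b ≤ N * (1 / p * (1 / q)) := by
    rw [← e2]; exact mul_le_mul_of_nonneg_left b2 iq0.le
  have b4 : N * (1 / p * (1 / q)) - 1 / (q : ℝ) ≤ 1 / (q : ℝ) * b := by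
    have := mul_le_mul_of_nonneg_left b1 iq0.le
    rw [mul_sub, e2] at this; linarith
  have c3 : 1 / (p : ℝ) * c ≤ N * (1 / p * (1 / q)) := by
    rw [← e3]; exact mul_le_mul_of_nonneg_left c2 ip0.le
  have c4 : N * (1 / p * (1 / q)) - 1 / (p : ℝ) ≤ 1 / (p : ℝ) * c := by
    have := mul_le_mul_of_nonneg_left c1 ip0.le
    rw [mul_sub, e3] at this; linarith
  rw [abs_le]
  constructor <;> linarith

lemma cov_self (N p : ℕ) (hp : p.Prime) : cov N p p ≤ N / p := by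
  rw [cov_eq N p p hp.pos hp.pos]
  have h1 : ∑ n ∈ Icc 1 N, (if p ∣ n ∧ p ∣ n then (1 : ℝ) else 0) = ((N / p : ℕ) : ℝ) := by
    rw [← card_dvd N p hp.pos]
    simp only [and_self]
  rw [h1]
  obtain ⟨b1, b2⟩ := floor_bounds N p hp.pos
  have hp2 : (2 : ℝ) ≤ p := by exact_mod_cast hp.two_le
  have hp0 : (0 : ℝ) < p := by linarith
  have ip : 1 / (p : ℝ) ≤ 1 / 2 := one_div_le_one_div_of_le (by norm_num) hp2
  have ip0 : 0 < 1 / (p : ℝ) := by positivity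
  set b : ℝ := ((N / p : ℕ) : ℝ)
  have e2 : (N : ℝ) * (1 / p * (1 / p)) = (N : ℝ) / p * (1 / p) := by ring
  rw [e2]
  have h3 : b * (1 - 2 * (1 / (p : ℝ))) ≤ (N : ℝ) / p * (1 - 2 * (1 / (p : ℝ))) :=
    mul_le_mul_of_nonneg_right b2 (by linarith)
  have h4 : 0 ≤ (N : ℝ) / p * (1 / p) := by positivity
  nlinarith

end Sarnak8c
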