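import Pool.Agent.Sarnak.TK

open Filter Topology Finset

namespace Sarnak8c

/-- variance bound for a set of primes `p` with `p ^ 2 ≤ N` -/
lemma var_small (N : ℕ) (P : Finset ℕ) (hP : ∀ p ∈ P, p.Prime ∧ p * p ≤ N) (θ : ℕ → ℝ) :
    ∑ n ∈ Icc 1 N, (∑ p ∈ P, (if p ∣ n then θ p else 0) - ∑ p ∈ P, θ p / p) ^ 2 ≤
      2 * N * ∑ p ∈ P, θ p ^ 2 / p := by
  have e1 : ∀ n, (∑ p ∈ P, (if p ∣ n then θ p else 0) - ∑ p ∈ P, θ p / p) =
      ∑ p ∈ P, θ p * ((if p ∣ n then (1 : ℝ) else 0) - 1 / p) := by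
    intro n
    rw [← sum_sub_distrib]
    apply sum_congr rfl
    intro p _
    split_ifs <;> ring
  have e2 : ∑ n ∈ Icc 1 N, (∑ p ∈ P, (if p ∣ n then θ p else 0) - ∑ p ∈ P, θ p / p) ^ 2 =
      ∑ p ∈ P, ∑ q ∈ P, θ p * θ q * cov N p q := by
    calc _ = ∑ n ∈ Icc 1 N, ∑ p ∈ P, ∑ q ∈ P,
          (θ p * ((if p ∣ n then (1 : ℝ) else 0) - 1 / p)) *
          (θ q * ((if q ∣ n then (1 : ℝ) else 0) - 1 / q)) := by
          apply sum_congr rfl
          intro n _
          rw [e1, sq, sum_mul_sum]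
      _ = ∑ p ∈ P, ∑ q ∈ P, ∑ n ∈ Icc 1 N,
          (θ p * ((if p ∣ n then (1 : ℝ) else 0) - 1 / p)) *
          (θ q * ((if q ∣ n then (1 : ℝ) else 0) - 1 / q)) := by
          rw [sum_comm]
          apply sum_congr rfl
          intro p _
          rw [sum_comm]
      _ = _ := by
          apply sum_congr rfl
          intro p _
          apply sum_congr rfl
          intro q _
          unfold cov
          rw [mul_sum]
          apply sum_congr rfl
          intro n _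
          ring
  rw [e2]
  have hb : ∀ p ∈ P, ∀ q ∈ P, θ p * θ q * cov N p q ≤
      |θ p| * |θ q| + (if p = q then N * (θ p ^ 2 / p) else 0) := by
    intro p hp q hq
    by_cases h : p = q
    · subst h
      rw [if_pos rfl]
      have h1 := cov_self N p (hP p hp).1
      have h2 : θ p * θ p * cov N p p ≤ θ p * θ p * (N / p) :=
        mul_le_mul_of_nonneg_left h1 (mul_self_nonneg _)
      have h3 : θ p * θ p * ((N : ℝ) / p) = N * (θ p ^ 2 / p) := by ring
      have h4 : 0 ≤ |θ p| * |θ p| := by positivity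
      linarith
    · rw [if_neg h, add_zero]
      calc θ p * θ q * cov N p q ≤ |θ p * θ q * cov N p q| := le_abs_self _
        _ = |θ p| * |θ q| * |cov N p q| := by rw [abs_mul, abs_mul]
        _ ≤ |θ p| * |θ q| * 1 := by
            gcongr
            exact cov_ne N p q (hP p hp).1 (hP q hq).1 h
        _ = _ := mul_one _
  have hsum : ∑ p ∈ P, ∑ q ∈ P, θ p * θ q * cov N p q ≤
      (∑ p ∈ P, |θ p|) ^ 2 + N * ∑ p ∈ P, θ p ^ 2 / p := by
    calc _ ≤ ∑ p ∈ P, ∑ q ∈ P, (|θ p| * |θ q| + (if p = q then N * (θ p ^ 2 / p) else 0)) :=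
          sum_le_sum fun p hp => sum_le_sum fun q hq => hb p hp q hq
      _ = _ := by
          simp only [sum_add_distrib]
          congr 1
          · rw [sq, sum_mul_sum]
          · rw [mul_sum]
            apply sum_congr rfl
            intro p hp
            rw [sum_ite_eq, if_pos hp]
  have hcs : (∑ p ∈ P, |θ p|) ^ 2 ≤ (∑ p ∈ P, θ p ^ 2 / p) * N := by
    have h1 : ∑ p ∈ P, |θ p| = ∑ p ∈ P, (|θ p| / Real.sqrt p) * Real.sqrt p := by
      apply sum_congr rfl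
      intro p hp
      have : 0 < Real.sqrt p := Real.sqrt_pos.2 (by exact_mod_cast (hP p hp).1.pos)
      field_simp
    rw [h1]
    refine (sum_mul_sq_le_sq_mul_sq _ _ _).trans ?_
    have h2 : ∑ p ∈ P, (|θ p| / Real.sqrt p) ^ 2 = ∑ p ∈ P, θ p ^ 2 / p := by
      apply sum_congr rfl
      intro p _
      rw [div_pow, sq_abs, Real.sq_sqrt (Nat.cast_nonneg p)]
    have h3 : ∑ p ∈ P, (Real.sqrt p) ^ 2 ≤ N := by
      have h4 : ∑ p ∈ P, (Real.sqrt p) ^ 2 = ((∑ p ∈ P, p : ℕ) : ℝ) := by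
        push_cast
        apply sum_congr rfl
        intro p _
        rw [Real.sq_sqrt (Nat.cast_nonneg p)]
      rw [h4]
      have h5 : ∑ p ∈ P, p ≤ N := by
        have hle : ∀ p ∈ P, p ≤ Nat.sqrt N := fun p hp => Nat.le_sqrt.2 (hP p hp).2
        have hsub : P ⊆ Icc 1 (Nat.sqrt N) := by
          intro p hp
          exact mem_Icc.2 ⟨(hP p hp).1.one_lt.le, hle p hp⟩
        calc ∑ p ∈ P, p ≤ ∑ p ∈ P, Nat.sqrt N := sum_le_sum hle
          _ = P.card * Nat.sqrt N := by rw [sum_const, smul_eq_mul]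
          _ ≤ Nat.sqrt N * Nat.sqrt N := by
              apply Nat.mul_le_mul_right
              exact (card_le_card hsub).trans (by simp)
          _ ≤ N := Nat.sqrt_le N
      exact_mod_cast h5
    rw [h2]
    apply mul_le_mul_of_nonneg_left h3
    exact sum_nonneg fun p _ => by positivity
  have : 2 * (N : ℝ) * ∑ p ∈ P, θ p ^ 2 / p = (∑ p ∈ P, θ p ^ 2 / p) * N + N * ∑ p ∈ P, θ p ^ 2 / p := by
    ring
  rw [this]
  exact hsum.trans (by linarith)

/-- second moment for a set of primes `p` with `p ^ 2 > N` -/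
lemma var_large (N : ℕ) (P : Finset ℕ) (hP : ∀ p ∈ P, p.Prime ∧ N < p * p) (θ : ℕ → ℝ) :
    ∑ n ∈ Icc 1 N, (∑ p ∈ P, (if p ∣ n then θ p else 0)) ^ 2 ≤ N * ∑ p ∈ P, θ p ^ 2 / p := by
  have h1 : ∀ n ∈ Icc 1 N, (∑ p ∈ P, (if p ∣ n then θ p else 0)) ^ 2 =
      ∑ p ∈ P, (if p ∣ n then θ p ^ 2 else 0) := by
    intro n hn
    rw [mem_Icc] at hn
    rw [← sum_filter, ← sum_filter]
    have hcard : (P.filter (· ∣ n)).card ≤ 1 := by
      rw [card_le_one]
      intro p hp q hq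
      rw [mem_filter] at hp hq
      by_contra hne
      have hpp := (hP p hp.1).1
      have hqq := (hP q hq.1).1
      have hcop : p.Coprime q := (Nat.coprime_primes hpp hqq).2 hne
      have hdvd : p * q ∣ n := hcop.mul_dvd_of_dvd_of_dvd hp.2 hq.2
      have hle : p * q ≤ N := (Nat.le_of_dvd (by omega) hdvd).trans hn.2
      rcases lt_or_gt_of_ne hne with h | h
      · have := (hP p hp.1).2
        have h2 : p * p ≤ p * q := Nat.mul_le_mul_left p h.le
        omega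
      · have := (hP q hq.1).2
        have h2 : q * q ≤ p * q := Nat.mul_le_mul_right q h.le
        omega
    rcases Nat.le_one_iff_eq_zero_or_eq_one.1 hcard with h | h
    · rw [card_eq_zero] at h
      rw [h]; simp
    · obtain ⟨p, hp⟩ := card_eq_one.1 h
      rw [hp]; simp
  rw [sum_congr rfl h1, sum_comm, mul_sum]
  apply sum_le_sum
  intro p hp
  have h2 : ∑ n ∈ Icc 1 N, (if p ∣ n then θ p ^ 2 else 0) = θ p ^ 2 * ((N / p : ℕ) : ℝ) := by
    rw [← card_dvd N p (hP p hp).1.pos, mul_sum]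
    apply sum_congr rfl
    intro n _
    split_ifs <;> simp
  rw [h2]
  have h3 := (floor_bounds N p (hP p hp).1.pos).2
  calc θ p ^ 2 * ((N / p : ℕ) : ℝ) ≤ θ p ^ 2 * ((N : ℝ) / p) := by gcongr
    _ = N * (θ p ^ 2 / p) := by ring

lemma sum_abs_le_sqrt (N : ℕ) (u : ℕ → ℝ) (V : ℝ)
    (h : ∑ n ∈ Icc 1 N, u n ^ 2 ≤ V) : ∑ n ∈ Icc 1 N, |u n| ≤ Real.sqrt (N * V) := by
  apply Real.le_sqrt_of_sq_le
  have h1 := sum_mul_sq_le_sq_mul_sq (Icc 1 N) (fun _ => (1 : ℝ)) (fun n => |u n|)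
  simp only [one_mul, one_pow, sum_const, Nat.card_Icc, sq_abs] at h1
  simp only [Nat.add_sub_cancel, nsmul_eq_mul, mul_one] at h1
  refine h1.trans ?_
  gcongr

/-- Turán–Kubilius inequality in `L¹` -/
lemma turan_kubilius (N : ℕ) (θ : ℕ → ℝ) : ∃ A : ℝ,
    ∑ n ∈ Icc 1 N, |∑ p ∈ PN N, (if p ∣ n then θ p else 0) - A| ≤
      3 * N * Real.sqrt (∑ p ∈ PN N, θ p ^ 2 / p) := by
  set P1 := (PN N).filter (fun p => p * p ≤ N) with hP1
  set P2 := (PN N).filter (fun p => ¬ p * p ≤ N) with hP2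
  set S := ∑ p ∈ PN N, θ p ^ 2 / p with hS
  have hprime : ∀ p ∈ PN N, p.Prime := fun p hp => (mem_filter.1 hp).2
  have hS0 : 0 ≤ S := sum_nonneg fun p _ => by positivity
  have hS1 : ∑ p ∈ P1, θ p ^ 2 / p ≤ S :=
    sum_le_sum_of_subset_of_nonneg (filter_subset _ _) fun p _ _ => by positivity
  have hS2 : ∑ p ∈ P2, θ p ^ 2 / p ≤ S :=
    sum_le_sum_of_subset_of_nonneg (filter_subset _ _) fun p _ _ => by positivity
  refine ⟨∑ p ∈ P1, θ p / p, ?_⟩
  have v1 := var_small N P1 (fun p hp => ⟨hprime p (mem_filter.1 hp).1, (mem_filter.1 hp).2⟩) θ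
  have v2 := var_large N P2 (fun p hp => ⟨hprime p (mem_filter.1 hp).1,
    not_le.1 (mem_filter.1 hp).2⟩) θ
  have w1 := sum_abs_le_sqrt N _ (2 * N * S) (v1.trans (by gcongr))
  have w2 := sum_abs_le_sqrt N _ (N * S) (v2.trans (by gcongr))
  have r1 : Real.sqrt (N * (2 * N * S)) ≤ 2 * N * Real.sqrt S := by
    rw [Real.sqrt_le_left (by positivity)]
    rw [mul_pow, Real.sq_sqrt hS0]
    nlinarith [mul_nonneg (mul_nonneg (Nat.cast_nonneg N : (0:ℝ) ≤ N) (Nat.cast_nonneg N : (0:ℝ) ≤ N)) hS0]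
  have r2 : Real.sqrt (N * (N * S)) ≤ N * Real.sqrt S := by
    rw [Real.sqrt_le_left (by positivity)]
    rw [mul_pow, Real.sq_sqrt hS0]
    nlinarith
  calc ∑ n ∈ Icc 1 N, |∑ p ∈ PN N, (if p ∣ n then θ p else 0) - ∑ p ∈ P1, θ p / p|
      ≤ ∑ n ∈ Icc 1 N, (|∑ p ∈ P1, (if p ∣ n then θ p else 0) - ∑ p ∈ P1, θ p / p| +
          |∑ p ∈ P2, (if p ∣ n then θ p else 0)|) := by
        apply sum_le_sum
        intro n _
        have : ∑ p ∈ PN N, (if p ∣ n then θ p else 0) =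
            ∑ p ∈ P1, (if p ∣ n then θ p else 0) + ∑ p ∈ P2, (if p ∣ n then θ p else 0) :=
          (sum_filter_add_sum_filter_not _ _ _).symm
        rw [this]
        refine le_trans (le_of_eq ?_) (abs_add_le _ _)
        congr 1; ring
    _ = _ := sum_add_distrib
    _ ≤ 2 * N * Real.sqrt S + N * Real.sqrt S := by linarith
    _ = _ := by ring

end Sarnak8c
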