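import Pool.Agent.Sarnak.Approx

open Filter Topology Finset ComplexConjugate

namespace Sarnak8c

lemma abel_ee (u e : ℕ → ℂ) (M : ℕ) :
    ∑ n ∈ Icc 1 (M + 1), u n * e n = (∑ n ∈ Icc 1 (M + 1), u n) * e (M + 1) -
      ∑ n ∈ Icc 1 M, (∑ k ∈ Icc 1 n, u k) * (e (n + 1) - e n) := by
  induction M with
  | zero => simp
  | succ M ih =>
    rw [sum_Icc_succ_top (by omega), ih, sum_Icc_succ_top (by omega : 1 ≤ M + 1 + 1) u,
      sum_Icc_succ_top (by omega : 1 ≤ M + 1) (fun n => (∑ k ∈ Icc 1 n, u k) * (e (n + 1) - e n))]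
    ring

lemma ee_log_diff (t : ℝ) {n : ℕ} (hn : 1 ≤ n) :
    ‖ee (t * Real.log ((n + 1 : ℕ) : ℝ)) - ee (t * Real.log n)‖ ≤ |t| * (1 / n) := by
  have hn0 : (0 : ℝ) < n := by exact_mod_cast hn
  refine (norm_ee_sub _ _).trans ?_
  rw [← mul_sub, abs_mul]
  apply mul_le_mul_of_nonneg_left _ (abs_nonneg t)
  rw [← Real.log_div (by positivity) hn0.ne']
  have h1 : 1 ≤ ((n + 1 : ℕ) : ℝ) / n := by
    rw [one_le_div hn0]; push_cast; linarith
  rw [abs_of_nonneg (Real.log_nonneg h1)]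
  refine (Real.log_le_sub_one_of_pos (by linarith)).trans (le_of_eq ?_)
  push_cast; field_simp; ring

lemma OrthDet.twist_log {g : ℕ → ℂ} (h : OrthDet g) (t : ℝ) :
    OrthDet (fun n => g n * ee (t * Real.log n)) := by
  intro z hz
  rw [tendsto_mean_iff]
  intro ε hε
  have h1 := (tendsto_mean_iff _).1 (h z hz)
  set U : ℕ → ℂ := fun N => ∑ n ∈ Icc 1 N, g n * z n with hU
  set ε' := ε / (4 * (1 + |t|)) with hε'
  have ht : 0 ≤ |t| := abs_nonneg t
  have hε'0 : 0 < ε' := by positivity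
  obtain ⟨N0, hN0⟩ := (h1 ε' hε'0).exists_forall_of_atTop
  set K : ℝ := ∑ n ∈ Icc 1 N0, ‖U n‖ * (1 / n) with hK
  have hK0 : 0 ≤ K := sum_nonneg fun n _ => by positivity
  have hces : ∀ M : ℕ, ∑ n ∈ Icc 1 M, ‖U n‖ * (1 / n) ≤ K + ε' * M := by
    intro M
    have h2 : ∀ n ∈ Icc 1 M, ‖U n‖ * (1 / n) ≤ (if n ≤ N0 then ‖U n‖ * (1 / n) else 0) + ε' := by
      intro n hn
      rw [mem_Icc] at hn
      by_cases hnN : n ≤ N0
      · rw [if_pos hnN]; linarith
      · rw [if_neg hnN, zero_add]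
        have h3 := hN0 n (by omega)
        have hn0 : (0 : ℝ) < n := by exact_mod_cast hn.1
        calc ‖U n‖ * (1 / n) ≤ (ε' * n) * (1 / n) := by gcongr
          _ = ε' := by field_simp
    refine (sum_le_sum h2).trans ?_
    rw [sum_add_distrib, ← sum_filter]
    apply add_le_add
    · apply sum_le_sum_of_subset_of_nonneg
      · intro n hn
        simp only [mem_filter, mem_Icc] at hn ⊢
        omega
      · intro n _ _; positivity
    · simp [mul_comm]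
  have hKN : ∀ᶠ N : ℕ in atTop, |t| * K ≤ (ε / 4) * N := by
    have := tendsto_natCast_atTop_atTop (R := ℝ)
    filter_upwards [this.eventually_ge_atTop (|t| * K / (ε / 4))] with N hN
    rw [div_le_iff₀ (by positivity)] at hN
    linarith
  filter_upwards [eventually_ge_atTop (N0 + 1), hKN] with N hN hN2
  obtain ⟨M, rfl⟩ : ∃ M, N = M + 1 := ⟨N - 1, by omega⟩
  have e1 : ∑ n ∈ Icc 1 (M + 1), g n * ee (t * Real.log n) * z n =
      ∑ n ∈ Icc 1 (M + 1), (g n * z n) * ee (t * Real.log n) := by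
    apply sum_congr rfl
    intro n _; ring
  rw [e1, abel_ee (fun n => g n * z n) (fun n : ℕ => ee (t * Real.log n)) M]
  have b1 := hN0 (M + 1) (by omega)
  have b2 : ‖∑ n ∈ Icc 1 M, (∑ k ∈ Icc 1 n, g k * z k) *
      (ee (t * Real.log ((n + 1 : ℕ) : ℝ)) - ee (t * Real.log n))‖ ≤ |t| * (K + ε' * M) := by
    refine (norm_sum_le _ _).trans ?_
    calc _ ≤ ∑ n ∈ Icc 1 M, |t| * (‖U n‖ * (1 / n)) := by
          apply sum_le_sum
          intro n hn
          rw [norm_mul]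
          calc _ ≤ ‖U n‖ * (|t| * (1 / n)) :=
                mul_le_mul_of_nonneg_left (ee_log_diff t (mem_Icc.1 hn).1) (norm_nonneg _)
            _ = _ := by ring
      _ = |t| * ∑ n ∈ Icc 1 M, ‖U n‖ * (1 / n) := by rw [mul_sum]
      _ ≤ _ := mul_le_mul_of_nonneg_left (hces M) ht
  calc _ ≤ ‖(∑ n ∈ Icc 1 (M + 1), g n * z n) * ee (t * Real.log ((M + 1 : ℕ) : ℝ))‖ +
        ‖∑ n ∈ Icc 1 M, (∑ k ∈ Icc 1 n, g k * z k) *
          (ee (t * Real.log ((n + 1 : ℕ) : ℝ)) - ee (t * Real.log n))‖ := norm_sub_le _ _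
    _ ≤ ε' * ((M + 1 : ℕ) : ℝ) + |t| * (K + ε' * M) := by
        rw [norm_mul, norm_ee, mul_one]
        exact add_le_add b1 b2
    _ ≤ ε * ((M + 1 : ℕ) : ℝ) := by
        have e2 : ε' * (1 + |t|) = ε / 4 := by rw [hε']; field_simp
        have e3 : (0 : ℝ) ≤ ((M + 1 : ℕ) : ℝ) := by positivity
        have e4 : (M : ℝ) ≤ ((M + 1 : ℕ) : ℝ) := by push_cast; linarith
        have e5 : |t| * (ε' * M) ≤ |t| * (ε' * ((M + 1 : ℕ) : ℝ)) := by gcongr
        have e6 : ε' * ((M + 1 : ℕ) : ℝ) + |t| * (ε' * ((M + 1 : ℕ) : ℝ)) =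
            (ε / 4) * ((M + 1 : ℕ) : ℝ) := by rw [← e2]; ring
        nlinarith

lemma OrthDet.twist_periodic {g : ℕ → ℂ} (h : OrthDet g) {w : ℕ → ℂ} (q : ℕ) (hq : 0 < q)
    (hw : ∀ n, w (n + q) = w n) : OrthDet (fun n => g n * w n) := by
  intro z hz
  refine (h _ (hz.mul_periodic q hq hw)).congr fun N => ?_
  congr 1
  apply sum_congr rfl
  intro n _; ring

end Sarnak8c
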